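import Mathlib

/-! Gaps and empty windows: combinatorics. -/

set_option autoImplicit false

namespace Pool.Agent.Y882.MG

open Finset

/-- the distance from `n` to the next element of `Q` -/
noncomputable def gap (Q : ℕ → Prop) (n : ℕ) : ℕ := sInf {g : ℕ | 0 < g ∧ Q (n + g)}

theorem gap_spec (Q : ℕ → Prop) (n : ℕ) (h : ∃ g : ℕ, 0 < g ∧ Q (n + g)) :
    0 < gap Q n ∧ Q (n + gap Q n) := by
  have := Nat.sInf_mem (s := {g : ℕ | 0 < g ∧ Q (n + g)}) h
  exact this

theorem gap_le (Q : ℕ → Prop) (n g : ℕ) (h0 : 0 < g) (h : Q (n + g)) : gap Q n ≤ g :=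
  Nat.sInf_le ⟨h0, h⟩

/-- an empty window -/
def Emp (Q : ℕ → Prop) (n h : ℕ) : Prop := ∀ m ∈ Ioc n (n + h), ¬ Q m

theorem gap_empty (Q : ℕ → Prop) (n h : ℕ) (hh : h < gap Q n) : Emp Q n h := by
  intro m hm hQ
  rw [mem_Ioc] at hm
  have h1 : gap Q n ≤ m - n := by
    apply gap_le Q n (m - n) (by omega)
    have : n + (m - n) = m := by omega
    rwa [this]
  omega

open Classical in
/-- an empty window of length `2 h` after an element gives `h` positions of empty windows of length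
`h` -/
theorem count_empty (Q : ℕ → Prop) (Y h : ℕ) (hh : h ≤ Y) (hh0 : 0 < h) :
    ((Ioc Y (2 * Y)).filter (fun n => Q n ∧ Emp Q n (2 * h))).card * h ≤
      ((Icc 1 (3 * Y)).filter (fun N => Emp Q N h)).card := by
  set S := (Ioc Y (2 * Y)).filter (fun n => Q n ∧ Emp Q n (2 * h)) with hS
  have h1 : S.card * h = (S ×ˢ range h).card := by rw [card_product, card_range]
  rw [h1]
  apply card_le_card_of_injOn (fun x : ℕ × ℕ => x.1 + x.2)
  · intro x hx
    rw [mem_coe, mem_product, hS, mem_filter, mem_Ioc, mem_range] at hx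
    obtain ⟨⟨⟨h2, h3⟩, h4, h5⟩, h6⟩ := hx
    show x.1 + x.2 ∈ _
    rw [mem_coe, mem_filter, mem_Icc]
    refine ⟨⟨by omega, by omega⟩, ?_⟩
    intro m hm
    rw [mem_Ioc] at hm
    apply h5
    rw [mem_Ioc]
    omega
  · have key : ∀ x ∈ S ×ˢ range h, ∀ y ∈ S ×ˢ range h, x.1 + x.2 = y.1 + y.2 → ¬ x.1 < y.1 := by
      intro x hx y hy hxy hlt
      rw [mem_product, hS, mem_filter, mem_Ioc, mem_range] at hx hy
      obtain ⟨⟨⟨h2, h3⟩, h4, h5⟩, h6⟩ := hx
      obtain ⟨⟨⟨h7, h8⟩, h9, h10⟩, h11⟩ := hy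
      exact h5 y.1 (by rw [mem_Ioc]; omega) h9
    intro x hx y hy hxy
    have hxy' : x.1 + x.2 = y.1 + y.2 := hxy
    have k1 := key x hx y hy hxy'
    have k2 := key y hy x hx hxy'.symm
    have e1 : x.1 = y.1 := by omega
    have e2 : x.2 = y.2 := by omega
    exact Prod.ext e1 e2

theorem sq_le_sum (g K : ℕ) (hg : 1 ≤ g) (hK : g < 2 ^ K) :
    ((g : ℝ)) ^ 2 ≤ 4 * ∑ k ∈ range K, (4 : ℝ) ^ k * (if 2 ^ k ≤ g then 1 else 0) := by
  set j := Nat.log 2 g with hj
  have h1 : 2 ^ j ≤ g := Nat.pow_log_le_self 2 (by omega)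
  have h2 : g < 2 ^ (j + 1) := Nat.lt_pow_succ_log_self (by norm_num) _
  have hjK : j < K := by
    by_contra hcon
    push Not at hcon
    have : 2 ^ K ≤ 2 ^ j := Nat.pow_le_pow_right (by norm_num) hcon
    omega
  have h3 : (4 : ℝ) ^ j * (if 2 ^ j ≤ g then 1 else 0) ≤
      ∑ k ∈ range K, (4 : ℝ) ^ k * (if 2 ^ k ≤ g then 1 else 0) := by
    apply single_le_sum (f := fun k => (4 : ℝ) ^ k * (if 2 ^ k ≤ g then 1 else 0))
    · intro k _
      split_ifs <;> positivity
    · exact mem_range.2 hjK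
  rw [if_pos h1, mul_one] at h3
  have h4 : (g : ℝ) ≤ 2 ^ (j + 1) := by exact_mod_cast h2.le
  have h5 : (g : ℝ) ^ 2 ≤ (2 ^ (j + 1)) ^ 2 := pow_le_pow_left₀ (Nat.cast_nonneg _) h4 2
  have h6 : ((2 : ℝ) ^ (j + 1)) ^ 2 = 4 * 4 ^ j := by
    rw [← pow_mul, mul_comm, pow_mul]
    norm_num
    rw [pow_succ]
    ring
  rw [h6] at h5
  linarith

open Classical in
/-- the sum of the squares of the gaps, from the numbers of the positions of empty windows -/
theorem sum_sq (Q : ℕ → Prop) (Y H : ℕ) (B : ℝ) (hH : H ≤ Y) (hH0 : 0 < H)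
    (hYB : (Y : ℝ) ≤ B)
    (hB : ∀ h : ℕ, 0 < h → h ≤ H →
      (((Icc 1 (3 * Y)).filter (fun N => Emp Q N h)).card : ℝ) ≤ B / h)
    (hBH : B < (H : ℝ) ^ 2) :
    ∑ n ∈ (Ioc Y (2 * Y)).filter Q, ((gap Q n : ℕ) : ℝ) ^ 2 ≤ 64 * (Nat.log 2 (2 * H) + 1) * B := by
  have hY0 : (0 : ℝ) ≤ Y := Nat.cast_nonneg _
  have hB0 : 0 ≤ B := hY0.trans hYB
  -- existence
  have hex : ∀ n ∈ Ioc Y (2 * Y), ∃ m ∈ Ioc n (n + 2 * H), Q m := by
    intro n hn
    by_contra hcon
    push Not at hcon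
    rw [mem_Ioc] at hn
    have h1 : (image (fun j => n + j) (range H)) ⊆
        (Icc 1 (3 * Y)).filter (fun N => Emp Q N H) := by
      intro N hN
      rw [mem_image] at hN
      obtain ⟨j, hj, rfl⟩ := hN
      rw [mem_range] at hj
      rw [mem_filter, mem_Icc]
      refine ⟨⟨by omega, by omega⟩, ?_⟩
      intro m hm
      apply hcon
      rw [mem_Ioc] at hm ⊢
      omega
    have h2 := card_le_card h1
    rw [card_image_of_injective _ (fun a b hab => by simpa using hab), card_range] at h2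
    have h3 : (H : ℝ) ≤ B / H := by
      refine le_trans ?_ (hB H hH0 le_rfl)
      exact_mod_cast h2
    have hHr : (0 : ℝ) < H := by exact_mod_cast hH0
    rw [le_div_iff₀ hHr] at h3
    nlinarith
  set K := Nat.log 2 (2 * H) + 1 with hK
  have hKlt : 2 * H < 2 ^ K := Nat.lt_pow_succ_log_self (by norm_num) _
  have hgap : ∀ n ∈ (Ioc Y (2 * Y)).filter Q, 1 ≤ gap Q n ∧ gap Q n ≤ 2 * H := by
    intro n hn
    rw [mem_filter] at hn
    obtain ⟨m, hm, hQm⟩ := hex n hn.1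
    rw [mem_Ioc] at hm
    have e : n + (m - n) = m := by omega
    have h1 : ∃ g : ℕ, 0 < g ∧ Q (n + g) := ⟨m - n, by omega, by rwa [e]⟩
    have h2 := gap_spec Q n h1
    have h3 := gap_le Q n (m - n) (by omega) (by rwa [e])
    exact ⟨h2.1, by omega⟩
  have hlev : ∀ k ∈ range K, (4 : ℝ) ^ k *
      (((((Ioc Y (2 * Y)).filter Q).filter (fun n => 2 ^ k ≤ gap Q n)).card : ℕ) : ℝ) ≤ 16 * B := by
    intro k hk
    rw [mem_range] at hk
    rcases Nat.lt_or_ge k 2 with hk2 | hk2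
    · have h1 : (((((Ioc Y (2 * Y)).filter Q).filter (fun n => 2 ^ k ≤ gap Q n)).card : ℕ) : ℝ) ≤ Y := by
        have h2 : (((Ioc Y (2 * Y)).filter Q).filter (fun n => 2 ^ k ≤ gap Q n)).card ≤ Y := by
          refine (card_filter_le _ _).trans ((card_filter_le _ _).trans ?_)
          rw [Nat.card_Ioc]
          omega
        exact_mod_cast h2
      have h2 : (4 : ℝ) ^ k ≤ 4 := by
        interval_cases k <;> norm_num
      have h3 : (4 : ℝ) ^ k *
        (((((Ioc Y (2 * Y)).filter Q).filter (fun n => 2 ^ k ≤ gap Q n)).card : ℕ) : ℝ) ≤ 4 * B := by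
        apply mul_le_mul h2 (h1.trans hYB) (Nat.cast_nonneg _) (by norm_num)
      linarith
    · obtain ⟨i, rfl⟩ : ∃ i, k = i + 2 := ⟨k - 2, by omega⟩
      have hi0 : 0 < 2 ^ i := pow_pos (by norm_num) i
      have hiH : 2 ^ i ≤ H := by
        have h1 : 2 ^ (i + 2) ≤ 2 ^ (Nat.log 2 (2 * H)) := Nat.pow_le_pow_right (by norm_num) (by omega)
        have h2 : 2 ^ (Nat.log 2 (2 * H)) ≤ 2 * H := Nat.pow_log_le_self 2 (by omega)
        rw [pow_add] at h1
        omega
      have h1 := count_empty Q Y (2 ^ i) (hiH.trans hH) hi0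
      have h2 := hB (2 ^ i) hi0 hiH
      have h3 : ((Ioc Y (2 * Y)).filter Q).filter (fun n => 2 ^ (i + 2) ≤ gap Q n) ⊆
          (Ioc Y (2 * Y)).filter (fun n => Q n ∧ Emp Q n (2 * 2 ^ i)) := by
        intro n hn
        rw [mem_filter, mem_filter] at hn
        rw [mem_filter]
        refine ⟨hn.1.1, hn.1.2, gap_empty Q n _ ?_⟩
        have h4 := hn.2
        rw [pow_add] at h4
        omega
      have h4 : (((((Ioc Y (2 * Y)).filter Q).filter (fun n => 2 ^ (i + 2) ≤ gap Q n)).card : ℕ) : ℝ) *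
          ((2 ^ i : ℕ) : ℝ) ≤ B / ((2 ^ i : ℕ) : ℝ) := by
        refine le_trans ?_ h2
        have h5 := (Nat.mul_le_mul_right (2 ^ i) (card_le_card h3)).trans h1
        exact_mod_cast h5
      have hp : (0 : ℝ) < ((2 ^ i : ℕ) : ℝ) := by exact_mod_cast hi0
      rw [le_div_iff₀ hp] at h4
      have h5 : (4 : ℝ) ^ (i + 2) = 16 * (((2 ^ i : ℕ) : ℝ) * ((2 ^ i : ℕ) : ℝ)) := by
        push_cast
        rw [← mul_pow, pow_add]
        norm_num
        ring
      rw [h5]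
      nlinarith
  calc ∑ n ∈ (Ioc Y (2 * Y)).filter Q, ((gap Q n : ℕ) : ℝ) ^ 2 ≤
      ∑ n ∈ (Ioc Y (2 * Y)).filter Q,
        4 * ∑ k ∈ range K, (4 : ℝ) ^ k * (if 2 ^ k ≤ gap Q n then 1 else 0) := by
        apply sum_le_sum
        intro n hn
        obtain ⟨g1, g2⟩ := hgap n hn
        exact sq_le_sum (gap Q n) K g1 (by omega)
    _ = 4 * ∑ k ∈ range K, (4 : ℝ) ^ k *
        (((((Ioc Y (2 * Y)).filter Q).filter (fun n => 2 ^ k ≤ gap Q n)).card : ℕ) : ℝ) := by
        rw [← mul_sum, sum_comm]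
        congr 1
        apply sum_congr rfl
        intro k _
        rw [← mul_sum, card_filter]
        push_cast
        rfl
    _ ≤ 4 * ∑ k ∈ range K, 16 * B := by
        apply mul_le_mul_of_nonneg_left _ (by norm_num)
        exact sum_le_sum hlev
    _ = _ := by
        rw [sum_const, card_range, nsmul_eq_mul, hK]
        push_cast
        ring

open Classical in
/-- from dyadic blocks to initial segments -/
theorem cum_sum (f : ℕ → ℝ) (hf : ∀ n, 0 ≤ f n) (a : ℝ) (ha : 0 < a) (Y0 : ℕ)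
    (h : ∀ Y : ℕ, Y0 ≤ Y → ∑ n ∈ Ioc Y (2 * Y), f n ≤ (Y : ℝ) ^ a) :
    ∃ C : ℝ, 0 < C ∧ ∀ X : ℕ, 1 ≤ X → ∑ n ∈ Icc 1 X, f n ≤ C * (X : ℝ) ^ a := by
  set r : ℝ := (2 / 3 : ℝ) ^ a with hr
  have hr0 : 0 < r := by positivity
  have hr1 : r < 1 := Real.rpow_lt_one (by norm_num) (by norm_num) ha
  set C : ℝ := max (∑ n ∈ Icc 1 (2 * Y0 + 4), f n) (r / (1 - r)) with hC
  have hrr : 0 < r / (1 - r) := div_pos hr0 (by linarith)
  have hC0 : 0 < C := lt_of_lt_of_le hrr (le_max_right _ _)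
  refine ⟨C, hC0, ?_⟩
  intro X
  induction X using Nat.strong_induction_on with
  | _ X ih =>
    intro hX1
    have hXr : (1 : ℝ) ≤ X := by exact_mod_cast hX1
    rcases Nat.lt_or_ge X (2 * Y0 + 4) with hlt | hge
    · have h1 : ∑ n ∈ Icc 1 X, f n ≤ ∑ n ∈ Icc 1 (2 * Y0 + 4), f n := by
        apply sum_le_sum_of_subset_of_nonneg
        · apply Icc_subset_Icc_right
          omega
        · intro n _ _
          exact hf n
      have h2 : ∑ n ∈ Icc 1 X, f n ≤ C := h1.trans (le_max_left _ _)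
      have h3 : (1 : ℝ) ≤ (X : ℝ) ^ a := Real.one_le_rpow hXr ha.le
      calc ∑ n ∈ Icc 1 X, f n ≤ C * 1 := by linarith
        _ ≤ C * (X : ℝ) ^ a := mul_le_mul_of_nonneg_left h3 hC0.le
    · set Y : ℕ := (X + 1) / 2 with hY
      have hYX : Y < X := by omega
      have hY1 : 1 ≤ Y := by omega
      have hYY0 : Y0 ≤ Y := by omega
      have h1 := ih Y hYX hY1
      have h2 := h Y hYY0
      have h3 : ∑ n ∈ Icc 1 X, f n ≤ C * (Y : ℝ) ^ a + (Y : ℝ) ^ a := by
        calc ∑ n ∈ Icc 1 X, f n ≤ ∑ n ∈ Icc 1 Y ∪ Ioc Y (2 * Y), f n := by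
              apply sum_le_sum_of_subset_of_nonneg
              · intro n hn
                rw [mem_Icc] at hn
                rw [mem_union, mem_Icc, mem_Ioc]
                omega
              · intro n _ _
                exact hf n
          _ ≤ ∑ n ∈ Icc 1 Y, f n + ∑ n ∈ Ioc Y (2 * Y), f n := by
              rw [sum_union]
              rw [disjoint_left]
              intro n hn hn'
              rw [mem_Icc] at hn
              rw [mem_Ioc] at hn'
              omega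
          _ ≤ _ := add_le_add h1 h2
      have h4 : (Y : ℝ) ^ a ≤ r * (X : ℝ) ^ a := by
        rw [hr, ← Real.mul_rpow (by norm_num) (by positivity)]
        apply Real.rpow_le_rpow (by positivity) _ ha.le
        have h5 : 3 * Y ≤ 2 * X := by omega
        have h6 : (3 : ℝ) * Y ≤ 2 * X := by exact_mod_cast h5
        linarith
      have h5 : (C + 1) * r ≤ C := by
        have h6 : r / (1 - r) ≤ C := le_max_right _ _
        rw [div_le_iff₀ (by linarith)] at h6
        linarith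
      have h7 : 0 ≤ (X : ℝ) ^ a := by positivity
      calc ∑ n ∈ Icc 1 X, f n ≤ (C + 1) * (Y : ℝ) ^ a := by linarith
        _ ≤ (C + 1) * (r * (X : ℝ) ^ a) := mul_le_mul_of_nonneg_left h4 (by linarith)
        _ = ((C + 1) * r) * (X : ℝ) ^ a := by ring
        _ ≤ C * (X : ℝ) ^ a := mul_le_mul_of_nonneg_right h5 h7

end Pool.Agent.Y882.MG
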