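import Pool.Agent.Y882.SI.Sq

/-! The weighted sieve in short intervals, with the squares of the medium primes removed. -/

set_option autoImplicit false

namespace Pool.Agent.Y882.MG

open Finset Polynomial Filter
open Pool.Agent.W23.DC
open Pool.Agent.Y882.PX
open Pool.Agent.Y882.KW
open Pool.Agent.Y882.SI

theorem tail_sq (B : Finset ℕ) (R : ℝ) (hR : 2 ≤ R) (h : ∀ q ∈ B, R ≤ q) :
    ∑ q ∈ B, 1 / (q : ℝ) ^ 2 ≤ 2 / R := by
  have hc : 2 ≤ ⌈R⌉₊ := by
    have h1 := Nat.le_ceil R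
    have h2 : (2 : ℝ) ≤ ⌈R⌉₊ := hR.trans h1
    exact_mod_cast h2
  obtain ⟨A, hA⟩ : ∃ A : ℕ, ⌈R⌉₊ = A + 1 := ⟨⌈R⌉₊ - 1, by omega⟩
  have hA1 : 1 ≤ A := by omega
  have hAr : R - 1 ≤ A := by
    have h1 := Nat.le_ceil R
    rw [hA] at h1
    push_cast at h1
    linarith
  have hA0 : (0 : ℝ) < A := by exact_mod_cast hA1
  have h4 : ∀ D : ℕ, A ≤ D → ∑ q ∈ Ioc A D, 1 / (q : ℝ) ^ 2 ≤ 1 / (A : ℝ) - 1 / (D : ℝ) := by
    intro D hD
    induction D, hD using Nat.le_induction with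
    | base => simp
    | succ D hD ih =>
      rw [sum_Ioc_succ_top hD]
      have hD0 : (0 : ℝ) < D := by exact_mod_cast (by omega : 0 < D)
      have h5 : 1 / (((D + 1 : ℕ) : ℝ)) ^ 2 ≤ 1 / (D : ℝ) - 1 / ((D + 1 : ℕ) : ℝ) := by
        push_cast
        rw [div_sub_div _ _ hD0.ne' (by positivity), div_le_div_iff₀ (by positivity) (by positivity)]
        nlinarith
      linarith
  have hsub : B ⊆ Ioc A (max A (B.sup id)) := by
    intro q hq
    rw [mem_Ioc]
    constructor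
    · have h1 : ⌈R⌉₊ ≤ q := Nat.ceil_le.2 (h q hq)
      omega
    · exact le_trans (Finset.le_sup (f := id) hq) (le_max_right _ _)
  calc ∑ q ∈ B, 1 / (q : ℝ) ^ 2 ≤ ∑ q ∈ Ioc A (max A (B.sup id)), 1 / (q : ℝ) ^ 2 :=
        sum_le_sum_of_subset_of_nonneg hsub (fun _ _ _ => by positivity)
    _ ≤ 1 / (A : ℝ) - 1 / ((max A (B.sup id) : ℕ) : ℝ) := h4 _ (le_max_left _ _)
    _ ≤ 1 / (A : ℝ) := by
        have : (0 : ℝ) ≤ 1 / ((max A (B.sup id) : ℕ) : ℝ) := by positivity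
        linarith
    _ ≤ 2 / R := by
        rw [div_le_div_iff₀ hA0 (by linarith)]
        linarith

theorem card_lt (B : Finset ℕ) (R : ℝ) (hR : 0 ≤ R) (h : ∀ q ∈ B, 1 ≤ q ∧ (q : ℝ) ≤ R) :
    (B.card : ℝ) ≤ R := by
  have hsub : B ⊆ Icc 1 ⌊R⌋₊ := by
    intro q hq
    obtain ⟨h1, h2⟩ := h q hq
    rw [mem_Icc]
    exact ⟨h1, Nat.le_floor h2⟩
  calc (B.card : ℝ) ≤ ((Icc 1 ⌊R⌋₊).card : ℝ) := by exact_mod_cast card_le_card hsub
    _ = (⌊R⌋₊ : ℝ) := by simp
    _ ≤ R := Nat.floor_le hR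

/-- the number of the `n` in `(N, N + h]` at which the weight is positive and at which no square of a
medium prime divides -/
noncomputable def posS (F : ℤ[X]) (Y : ℕ) (ζ υ aw bw : ℝ) (h N : ℕ) : Finset ℕ := by
  classical
  exact (pos F Y ζ υ aw bw h N).filter
    (fun j => ∀ q ∈ pr Y ζ υ, ¬ ((q ^ 2 : ℕ) : ℤ) ∣ F.eval ((N + j : ℕ) : ℤ))

/-- the value at `n` is divisible by the square of an element of `B` -/
def DivB (F : ℤ[X]) (B : Finset ℕ) (n : ℕ) : Prop := ∃ q ∈ B, ((q ^ 2 : ℕ) : ℤ) ∣ F.eval (n : ℤ)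

open Classical in
/-- **The weighted sieve in short intervals, squares removed.** -/
theorem engS (K : ℕ) (τ ζ υ aw bw ε c : ℝ) (hζ : 0 < ζ) (h2 : 2 * ζ < τ)
    (h4 : τ ≤ 4 * ζ) (hτ : τ < 1) (hζυ : ζ ≤ υ) (hυτ : υ < τ) (ha : 0 ≤ aw) (hb : 0 ≤ bw)
    (hab : bw * υ ≤ aw)
    (hJ0 : ∫ x in ζ..υ, (aw - bw * x) / (τ - x) / x < Real.log (τ / ζ - 1) / τ) (hε : 0 < ε)
    (hc : 0 < c) :
    ∃ δ ε₁ η : ℝ, 0 < δ ∧ 0 < ε₁ ∧ ε₁ ≤ ζ ∧ 0 < η ∧ ∃ Y0 : ℕ, ∀ Y : ℕ, Y0 ≤ Y →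
      ∀ (F : ℤ[X]) (X h : ℕ), (∀ p : ℕ, p.Prime → ro F 0 p ≤ K) →
        (∀ q : ℕ, q.Prime → (Y : ℝ) ^ ζ ≤ q → ∀ N H : ℕ,
          ((((Icc 1 H).filter (fun j : ℕ => ((q ^ 2 : ℕ) : ℤ) ∣ F.eval ((N + j : ℕ) : ℤ))).card : ℕ) : ℝ) ≤
            K * (H * (1 / (q : ℝ) ^ 2) + 1)) →
        0 < h → (h : ℝ) ≤ (Y : ℝ) ^ (2 * τ - υ) → c / Real.log Y ≤ lo F Y →
        Mer (pr Y ε₁ υ) (tt Y) (fun p => (ro F 0 p : ℝ) / p) ε₁ υ η →
        (((Icc 1 X).filter (fun N => ((posS F Y ζ υ aw bw h N).card : ℝ) <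
          δ * h / Real.log Y)).card : ℝ) ≤ (X + (Y : ℝ) ^ (2 * τ)) / h * (Y : ℝ) ^ ε := by
  obtain ⟨δ, ε₁, η, hδ, hε₁, hε₁ζ, hε₁β, hη, Y1, HE⟩ := engI K 1 τ ζ υ aw bw (ε / 2)
    one_pos hζ h2 h4 hτ hζυ hυτ ha hb hab hJ0 (by linarith)
  obtain ⟨s, hs0, hs1, hs2⟩ : ∃ s : ℝ, 0 < s ∧ s ≤ ε / 8 ∧ s ≤ ζ :=
    ⟨min (ε / 8) ζ, lt_min (by linarith) hζ, min_le_left _ _, min_le_right _ _⟩
  have ev1 : ∀ᶠ Y : ℕ in atTop, 2 * ((3 * K + 1 : ℝ)) / (δ * c) * Real.log Y ≤ (Y : ℝ) ^ s := by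
    have h1 := (isLittleO_log_rpow_atTop hs0).bound
      (show (0 : ℝ) < (δ * c) / (2 * (3 * K + 1 : ℝ)) by positivity)
    filter_upwards [tendsto_natCast_atTop_atTop.eventually h1, eventually_ge_atTop 1] with Y hY hY1
    have hY1r : (1 : ℝ) ≤ Y := by exact_mod_cast hY1
    rw [Real.norm_of_nonneg (Real.log_nonneg hY1r), Real.norm_of_nonneg (by positivity)] at hY
    rw [div_mul_eq_mul_div, div_le_iff₀ (by positivity)]
    rw [div_mul_eq_mul_div, le_div_iff₀ (by positivity)] at hY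
    linarith
  have ev2 : ∀ᶠ Y : ℕ in atTop, (2 : ℝ) ≤ (Y : ℝ) ^ (ε / 4) :=
    ((tendsto_rpow_atTop (by linarith)).comp tendsto_natCast_atTop_atTop).eventually_ge_atTop _
  have ev3 : ∀ᶠ Y : ℕ in atTop, 3 * (K : ℝ) ≤ (Y : ℝ) ^ (ε / 4) :=
    ((tendsto_rpow_atTop (by linarith)).comp tendsto_natCast_atTop_atTop).eventually_ge_atTop _
  have ev4 : ∀ᶠ Y : ℕ in atTop, (2 : ℝ) ≤ (Y : ℝ) ^ ζ :=
    ((tendsto_rpow_atTop hζ).comp tendsto_natCast_atTop_atTop).eventually_ge_atTop _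
  obtain ⟨Y2, hY2⟩ := eventually_atTop.1 (ev1.and (ev2.and (ev3.and (ev4.and
    (eventually_ge_atTop 3)))))
  refine ⟨δ * c / 2, ε₁, η, by positivity, hε₁, hε₁ζ, hη, max Y1 Y2, ?_⟩
  intro Y hY F X h hK hSq hh hhY hlo hmer
  have hYY1 : Y1 ≤ Y := (le_max_left _ _).trans hY
  obtain ⟨e1, e2, e3, e4, e5⟩ := hY2 Y ((le_max_right _ _).trans hY)
  have hYr : (3 : ℝ) ≤ Y := by exact_mod_cast e5
  have hY0 : (0 : ℝ) < Y := by linarith
  have hY1r : (1 : ℝ) ≤ Y := by linarith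
  have hlY : 0 < Real.log Y := Real.log_pos (by linarith)
  have hh0 : (0 : ℝ) < h := by exact_mod_cast hh
  have hX0 : (0 : ℝ) ≤ X := Nat.cast_nonneg _
  have hP0 : (0 : ℝ) < (Y : ℝ) ^ (2 * τ) := by positivity
  rcases le_or_gt (h : ℝ) ((Y : ℝ) ^ (ε / 2)) with hsm | hbig
  · calc (((Icc 1 X).filter (fun N => ((posS F Y ζ υ aw bw h N).card : ℝ) <
          δ * c / 2 * h / Real.log Y)).card : ℝ) ≤ ((Icc 1 X).card : ℝ) := by
          exact_mod_cast card_filter_le _ _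
      _ = X := by simp
      _ ≤ (X + (Y : ℝ) ^ (2 * τ)) := by linarith
      _ = (X + (Y : ℝ) ^ (2 * τ)) / h * h := by field_simp
      _ ≤ (X + (Y : ℝ) ^ (2 * τ)) / h * (Y : ℝ) ^ ε := by
          apply mul_le_mul_of_nonneg_left _ (by positivity)
          refine hsm.trans ?_
          exact Real.rpow_le_rpow_of_exponent_le hY1r (by linarith)
  · have hA := HE Y hYY1 F X h Y hK hh (by rw [Real.rpow_one]) hmer
    set R : ℝ := h * (Y : ℝ) ^ (-s) with hRdef
    have hR2 : 2 ≤ R := by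
      calc (2 : ℝ) ≤ (Y : ℝ) ^ (ε / 4) := e2
        _ ≤ (Y : ℝ) ^ (ε / 2 + -s) := Real.rpow_le_rpow_of_exponent_le hY1r (by linarith)
        _ = (Y : ℝ) ^ (ε / 2) * (Y : ℝ) ^ (-s) := Real.rpow_add hY0 _ _
        _ ≤ _ := mul_le_mul_of_nonneg_right hbig.le (by positivity)
    have hR0 : 0 < R := by linarith
    set A := (pr Y ζ υ).filter (fun q : ℕ => (q : ℝ) < R) with hAdef
    set B := (pr Y ζ υ).filter (fun q : ℕ => R ≤ (q : ℝ)) with hBdef
    have hprm : ∀ q ∈ pr Y ζ υ, q.Prime ∧ (Y : ℝ) ^ ζ ≤ q ∧ (q : ℝ) ≤ (Y : ℝ) ^ υ := by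
      intro q hq
      obtain ⟨u1, u2, u3⟩ := pr_mem Y q ζ υ (by omega) hq
      exact ⟨u1, u2, u3.le⟩
    set t : ℝ := (Y : ℝ) ^ s with ht
    have ht0 : 0 < t := by positivity
    have hts : (Y : ℝ) ^ (-s) = 1 / t := by
      rw [ht, Real.rpow_neg hY0.le, one_div]
    -- the small squares
    have hptA : ∀ N : ℕ, ((((Icc 1 h).filter (fun j : ℕ => DivB F A (N + j))).card : ℕ) : ℝ) ≤ 3 * K * (h / t) := by
      intro N
      have hsub : (Icc 1 h).filter (fun j : ℕ => DivB F A (N + j)) ⊆ A.biUnion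
          (fun q => (Icc 1 h).filter (fun j : ℕ => ((q ^ 2 : ℕ) : ℤ) ∣ F.eval ((N + j : ℕ) : ℤ))) := by
        intro j hj
        rw [mem_filter] at hj
        obtain ⟨hj1, q, hq, hqj⟩ := hj
        rw [mem_biUnion]
        exact ⟨q, hq, by rw [mem_filter]; exact ⟨hj1, hqj⟩⟩
      have hcA : (A.card : ℝ) ≤ R := by
        apply card_lt A R hR0.le
        intro q hq
        rw [hAdef, mem_filter] at hq
        exact ⟨(hprm q hq.1).1.one_le, hq.2.le⟩
      have htA : ∑ q ∈ A, 1 / (q : ℝ) ^ 2 ≤ 2 / (Y : ℝ) ^ ζ := by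
        apply tail_sq A _ e4
        intro q hq
        rw [hAdef, mem_filter] at hq
        exact (hprm q hq.1).2.1
      calc ((((Icc 1 h).filter (fun j : ℕ => DivB F A (N + j))).card : ℕ) : ℝ) ≤
          ((∑ q ∈ A, ((Icc 1 h).filter
            (fun j : ℕ => ((q ^ 2 : ℕ) : ℤ) ∣ F.eval ((N + j : ℕ) : ℤ))).card : ℕ) : ℝ) := by
            exact_mod_cast (card_le_card hsub).trans card_biUnion_le
        _ ≤ ∑ q ∈ A, (K : ℝ) * (h * (1 / (q : ℝ) ^ 2) + 1) := by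
            push_cast
            apply sum_le_sum
            intro q hq
            rw [hAdef, mem_filter] at hq
            have u := hprm q hq.1
            have u2 := hSq q u.1 u.2.1 N h
            push_cast at u2
            exact u2
        _ = (K : ℝ) * (h * (∑ q ∈ A, 1 / (q : ℝ) ^ 2) + A.card) := by
            rw [← mul_sum, sum_add_distrib, ← mul_sum, sum_const, nsmul_eq_mul, mul_one]
        _ ≤ (K : ℝ) * (h * (2 / (Y : ℝ) ^ ζ) + R) := by gcongr
        _ ≤ (K : ℝ) * (h * (2 / t) + h / t) := by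
            have u3 : t ≤ (Y : ℝ) ^ ζ := Real.rpow_le_rpow_of_exponent_le hY1r hs2
            have u4 : R = h / t := by
              rw [hRdef, hts]
              ring
            rw [u4]
            gcongr
        _ = _ := by ring
    -- the large squares
    have hB := bad_pos (DivB F B) X h t ht0
    have hcB : ((((Icc 1 (X + h)).filter (DivB F B)).card : ℕ) : ℝ) ≤
        (K : ℝ) * ((X + h) * (2 / R) + (Y : ℝ) ^ υ) := by
      have hsub : (Icc 1 (X + h)).filter (DivB F B) ⊆ B.biUnion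
          (fun q => (Icc 1 (X + h)).filter (fun j : ℕ =>
            ((q ^ 2 : ℕ) : ℤ) ∣ F.eval ((0 + j : ℕ) : ℤ))) := by
        intro j hj
        rw [mem_filter] at hj
        obtain ⟨hj1, q, hq, hqj⟩ := hj
        rw [mem_biUnion]
        exact ⟨q, hq, by rw [mem_filter, zero_add]; exact ⟨hj1, hqj⟩⟩
      have hcB' : (B.card : ℝ) ≤ (Y : ℝ) ^ υ := by
        apply card_lt B _ (by positivity)
        intro q hq
        rw [hBdef, mem_filter] at hq
        exact ⟨(hprm q hq.1).1.one_le, (hprm q hq.1).2.2⟩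
      have htB : ∑ q ∈ B, 1 / (q : ℝ) ^ 2 ≤ 2 / R := by
        apply tail_sq B _ hR2
        intro q hq
        rw [hBdef, mem_filter] at hq
        exact hq.2
      calc ((((Icc 1 (X + h)).filter (DivB F B)).card : ℕ) : ℝ) ≤
          ((∑ q ∈ B, ((Icc 1 (X + h)).filter
            (fun j : ℕ => ((q ^ 2 : ℕ) : ℤ) ∣ F.eval ((0 + j : ℕ) : ℤ))).card : ℕ) : ℝ) := by
            exact_mod_cast (card_le_card hsub).trans card_biUnion_le
        _ ≤ ∑ q ∈ B, (K : ℝ) * (((X + h : ℕ) : ℝ) * (1 / (q : ℝ) ^ 2) + 1) := by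
            push_cast
            apply sum_le_sum
            intro q hq
            rw [hBdef, mem_filter] at hq
            have u := hprm q hq.1
            have u2 := hSq q u.1 u.2.1 0 (X + h)
            push_cast at u2
            exact u2
        _ = (K : ℝ) * (((X + h : ℕ) : ℝ) * (∑ q ∈ B, 1 / (q : ℝ) ^ 2) + B.card) := by
            rw [← mul_sum, sum_add_distrib, ← mul_sum, sum_const, nsmul_eq_mul, mul_one]
        _ ≤ _ := by
            push_cast
            gcongr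
    set A1 := (Icc 1 X).filter (fun N => ((pos F Y ζ υ aw bw h N).card : ℝ) < δ * h * lo F Y) with hA1
    set A2 := (Icc 1 X).filter (fun N => (h : ℝ) / t <
      (((Icc 1 h).filter (fun j => DivB F B (N + j))).card : ℝ)) with hA2
    have hsub : (Icc 1 X).filter (fun N => ((posS F Y ζ υ aw bw h N).card : ℝ) <
          δ * c / 2 * h / Real.log Y) ⊆ A1 ∪ A2 := by
      intro N hN
      rw [mem_filter] at hN
      rw [mem_union]
      by_contra hcon
      push Not at hcon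
      obtain ⟨hc1, hc2⟩ := hcon
      have g1 : δ * h * lo F Y ≤ ((pos F Y ζ υ aw bw h N).card : ℝ) := by
        by_contra h'
        exact hc1 (by rw [hA1, mem_filter]; exact ⟨hN.1, not_le.1 h'⟩)
      have g2 : (((Icc 1 h).filter (fun j => DivB F B (N + j))).card : ℝ) ≤ (h : ℝ) / t := by
        by_contra h'
        exact hc2 (by rw [hA2, mem_filter]; exact ⟨hN.1, not_le.1 h'⟩)
      have g4 : pos F Y ζ υ aw bw h N ⊆ posS F Y ζ υ aw bw h N ∪
          ((Icc 1 h).filter (fun j : ℕ => DivB F A (N + j)) ∪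
          (Icc 1 h).filter (fun j => DivB F B (N + j))) := by
        intro j hj
        have hj1 : j ∈ Icc 1 h := by
          unfold pos at hj
          exact (mem_filter.1 hj).1
        rw [mem_union, mem_union, mem_filter, mem_filter]
        by_cases hb : ∀ q ∈ pr Y ζ υ, ¬ ((q ^ 2 : ℕ) : ℤ) ∣ F.eval ((N + j : ℕ) : ℤ)
        · left
          unfold posS
          rw [mem_filter]
          exact ⟨hj, hb⟩
        · right
          push Not at hb
          obtain ⟨q, hq, hqd⟩ := hb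
          rcases lt_or_ge (q : ℝ) R with hqR | hqR
          · left
            exact ⟨hj1, q, by rw [hAdef, mem_filter]; exact ⟨hq, hqR⟩, hqd⟩
          · right
            exact ⟨hj1, q, by rw [hBdef, mem_filter]; exact ⟨hq, hqR⟩, hqd⟩
      have g5 : ((pos F Y ζ υ aw bw h N).card : ℝ) ≤ ((posS F Y ζ υ aw bw h N).card : ℝ) +
          ((((Icc 1 h).filter (fun j : ℕ => DivB F A (N + j))).card : ℝ) +
          (((Icc 1 h).filter (fun j => DivB F B (N + j))).card : ℝ)) := by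
        have u1 := (card_le_card g4).trans ((card_union_le _ _).trans
          (Nat.add_le_add_left (card_union_le _ _) _))
        exact_mod_cast u1
      have g6 := hptA N
      have g7 : (3 * K + 1 : ℝ) * (h / t) ≤ δ * c / 2 * h / Real.log Y := by
        rw [div_mul_eq_mul_div, div_le_iff₀ (by positivity)] at e1
        rw [mul_div_assoc', div_le_div_iff₀ ht0 hlY]
        calc (3 * (K : ℝ) + 1) * h * Real.log Y = (2 * (3 * K + 1 : ℝ) * Real.log Y) * (h / 2) := by ring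
          _ ≤ (t * (δ * c)) * (h / 2) := mul_le_mul_of_nonneg_right e1 (by positivity)
          _ = _ := by ring
      have g8 : δ * h * (c / Real.log Y) ≤ δ * h * lo F Y :=
        mul_le_mul_of_nonneg_left hlo (by positivity)
      have g9 : δ * h * (c / Real.log Y) = 2 * (δ * c / 2 * h / Real.log Y) := by
        field_simp
      have g10 : (3 * K + 1 : ℝ) * (h / t) = 3 * K * (h / t) + h / t := by ring
      linarith [hN.2]
    have r2 : (A2.card : ℝ) ≤ (X + (Y : ℝ) ^ (2 * τ)) / h * (Y : ℝ) ^ (ε / 2) := by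
      refine hB.trans ?_
      have u1 : (Y : ℝ) ^ υ ≤ (Y : ℝ) ^ (2 * τ) / h := by
        rw [le_div_iff₀ hh0]
        calc (Y : ℝ) ^ υ * h ≤ (Y : ℝ) ^ υ * (Y : ℝ) ^ (2 * τ - υ) :=
              mul_le_mul_of_nonneg_left hhY (by positivity)
          _ = _ := by
              rw [← Real.rpow_add hY0]
              congr 1
              ring
      have u2 : (h : ℝ) ≤ (Y : ℝ) ^ (2 * τ) := by
        refine hhY.trans (Real.rpow_le_rpow_of_exponent_le hY1r (by linarith))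
      have u3 : 1 ≤ t := Real.one_le_rpow hY1r hs0.le
      have u4 : (X + h : ℝ) * (2 / R) + (Y : ℝ) ^ υ ≤ 3 * ((X + (Y : ℝ) ^ (2 * τ)) / h * t) := by
        have u5 : R = h / t := by
          rw [hRdef, hts]
          ring
        rw [u5]
        have u6 : (X + h : ℝ) * (2 / (h / t)) = 2 * (((X : ℝ) + h) / h * t) := by
          field_simp
        rw [u6]
        have u7 : ((X : ℝ) + h) / h * t ≤ (X + (Y : ℝ) ^ (2 * τ)) / h * t := by gcongr
        have u8 : (Y : ℝ) ^ (2 * τ) / h ≤ (X + (Y : ℝ) ^ (2 * τ)) / h * t := by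
          calc (Y : ℝ) ^ (2 * τ) / h ≤ (X + (Y : ℝ) ^ (2 * τ)) / h := by
                apply div_le_div_of_nonneg_right _ hh0.le
                linarith
            _ = (X + (Y : ℝ) ^ (2 * τ)) / h * 1 := (mul_one _).symm
            _ ≤ _ := mul_le_mul_of_nonneg_left u3 (by positivity)
        linarith
      calc t * (((Icc 1 (X + h)).filter (DivB F B)).card : ℝ) ≤
          t * ((K : ℝ) * ((X + h) * (2 / R) + (Y : ℝ) ^ υ)) := mul_le_mul_of_nonneg_left hcB ht0.le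
        _ ≤ t * ((K : ℝ) * (3 * ((X + (Y : ℝ) ^ (2 * τ)) / h * t))) := by gcongr
        _ = (X + (Y : ℝ) ^ (2 * τ)) / h * ((3 * K) * (t * t)) := by ring
        _ ≤ (X + (Y : ℝ) ^ (2 * τ)) / h * ((Y : ℝ) ^ (ε / 4) * (Y : ℝ) ^ (ε / 4)) := by
            have u9 : t * t ≤ (Y : ℝ) ^ (ε / 4) := by
              rw [ht, ← Real.rpow_add hY0]
              exact Real.rpow_le_rpow_of_exponent_le hY1r (by linarith)
            gcongr
        _ = _ := by
            rw [← Real.rpow_add hY0]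
            congr 2
            ring
    calc (((Icc 1 X).filter (fun N => ((posS F Y ζ υ aw bw h N).card : ℝ) <
          δ * c / 2 * h / Real.log Y)).card : ℝ) ≤ ((A1 ∪ A2).card : ℝ) := by
          exact_mod_cast card_le_card hsub
      _ ≤ A1.card + A2.card := by exact_mod_cast card_union_le _ _
      _ ≤ (X + (Y : ℝ) ^ (2 * τ)) / h * (Y : ℝ) ^ (ε / 2) +
          (X + (Y : ℝ) ^ (2 * τ)) / h * (Y : ℝ) ^ (ε / 2) := add_le_add hA r2
      _ = (X + (Y : ℝ) ^ (2 * τ)) / h * (2 * (Y : ℝ) ^ (ε / 2)) := by ring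
      _ ≤ (X + (Y : ℝ) ^ (2 * τ)) / h * ((Y : ℝ) ^ (ε / 4) * (Y : ℝ) ^ (ε / 2)) := by gcongr
      _ ≤ _ := by
          apply mul_le_mul_of_nonneg_left _ (by positivity)
          rw [← Real.rpow_add hY0]
          exact Real.rpow_le_rpow_of_exponent_le hY1r (by linarith)

end Pool.Agent.Y882.MG
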