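import Pool.Agent.Y882.MG.Lin
import Pool.Agent.Y882.MG.Comb
import Pool.Agent.Y882.GX.All

/-! The mean square of the gaps between almost primes. -/

set_option autoImplicit false

namespace Pool.Agent.Y882.MG

open Finset Filter
open Pool.Agent.W23.DC
open Pool.Agent.Y882.PX
open Pool.Agent.Y882.KW
open Pool.Agent.Y882.SI
open Pool.Agent.Y882.GX

/-- at most `r` prime factors, all at least `n ^ ζ / 2` -/
def AP (r : ℕ) (ζ : ℝ) (n : ℕ) : Prop :=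
  n.primeFactorsList.length ≤ r ∧ ∀ p : ℕ, p.Prime → p ∣ n → (n : ℝ) ^ ζ / 2 ≤ p

theorem numPar (r : ℕ) (τ ζ : ℝ) (hpar : Par r τ ζ) (hτ : τ < 1) :
    1 / 2 ≤ τ ∧ 0 < ζ ∧ 2 * ζ < τ ∧ τ ≤ 4 * ζ ∧ ζ ≤ 1 / 2 ∧ ζ ≤ 9 / 10 * τ ∧
    ∃ lam S : ℝ, 0 < lam ∧ 1 < S ∧ 1 / lam + S / (9 / 10 * τ) ≤ r + 1 ∧
    ∫ x in ζ..(9 / 10 * τ), (lam - lam / (9 / 10 * τ) * x) / (τ - x) / x <
      Real.log (τ / ζ - 1) / τ := by
  rcases hpar with ⟨hr, h1, h2⟩ | ⟨hr, h1, h2⟩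
  · have hJ := Pool.Agent.Y882.KW.cond_B τ (20 / 31) (by linarith) (by norm_num) (by norm_num)
    rw [← h2] at hJ
    refine ⟨h1, by linarith, by linarith, by linarith, by linarith, by linarith, 20 / 31,
      1001 / 1000, by norm_num, by norm_num, ?_, hJ⟩
    rw [hr]
    have h3 : (1001 / 1000 : ℝ) / (9 / 10 * τ) ≤ 2225 / 1000 := by
      rw [div_le_iff₀ (by linarith)]
      linarith
    push_cast
    norm_num at h3 ⊢
    linarith
  · have hJ := Pool.Agent.Y882.KW.cond_C τ (80 / 77) (by linarith) (by norm_num) (by norm_num)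
    rw [← h2] at hJ
    refine ⟨by linarith, by linarith, by linarith, by linarith, by linarith, by linarith, 80 / 77,
      10002 / 10000, by norm_num, by norm_num, ?_, hJ⟩
    rw [hr]
    have h3 : (10002 / 10000 : ℝ) / (9 / 10 * τ) ≤ 20375 / 10000 := by
      rw [div_le_iff₀ (by linarith)]
      linarith
    push_cast
    norm_num at h3 ⊢
    linarith

open Classical in
/-- few empty windows -/
theorem fewEmpty (r : ℕ) (τ ζ ε : ℝ) (hpar : Par r τ ζ) (hτ : τ < 1) (hε : 0 < ε) :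
    ∃ Y0 : ℕ, ∀ Y : ℕ, Y0 ≤ Y → ∀ h : ℕ, 0 < h → (h : ℝ) ≤ (Y : ℝ) ^ (11 / 10 * τ) → h ≤ Y →
      (((Icc 1 (3 * Y)).filter (fun N => Emp (AP r ζ) N h)).card : ℝ) ≤
        (Y : ℝ) ^ (2 * τ + ε) / h := by
  obtain ⟨hτ2, hζ0, hζτ, hζ4, hζ2, hζυ, lam, S, hlam, hS, hr, hJ⟩ := numPar r τ ζ hpar hτ
  have hυ0 : 0 < 9 / 10 * τ := by linarith
  obtain ⟨c, hc, HL⟩ := lo_lin
  obtain ⟨δ, ε₁, η, hδ, hε₁, hε₁ζ, hη, Y1, HE⟩ := engS 1 τ ζ (9 / 10 * τ) lam (lam / (9 / 10 * τ))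
    (ε / 2) c hζ0 hζτ hζ4 hτ hζυ (by linarith) hlam.le (by positivity)
    (by rw [div_mul_cancel₀ _ hυ0.ne']) hJ (by linarith) hc
  obtain ⟨Y2, HM⟩ := mer_lin ε₁ (9 / 10 * τ) η hε₁ (by linarith) hη
  have ev1 : ∀ᶠ Y : ℕ in atTop, (4 : ℝ) ≤ (Y : ℝ) ^ (ε / 2) :=
    ((tendsto_rpow_atTop (by linarith)).comp tendsto_natCast_atTop_atTop).eventually_ge_atTop _
  have ev2 : ∀ᶠ Y : ℕ in atTop, (4 : ℝ) ≤ (Y : ℝ) ^ (S - 1) :=
    ((tendsto_rpow_atTop (by linarith)).comp tendsto_natCast_atTop_atTop).eventually_ge_atTop _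
  obtain ⟨Y3, hY3⟩ := eventually_atTop.1 (ev1.and (ev2.and (eventually_ge_atTop 3)))
  refine ⟨max (max Y1 Y2) Y3, ?_⟩
  intro Y hY h hh hhY hhY1
  have hYY1 : Y1 ≤ Y := ((le_max_left _ _).trans (le_max_left _ _)).trans hY
  have hYY2 : Y2 ≤ Y := ((le_max_right _ _).trans (le_max_left _ _)).trans hY
  obtain ⟨e1, e2, e3⟩ := hY3 Y ((le_max_right _ _).trans hY)
  have hYr : (3 : ℝ) ≤ Y := by exact_mod_cast e3
  have hY0 : (0 : ℝ) < Y := by linarith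
  have hY1r : (1 : ℝ) ≤ Y := by linarith
  have hlY : 0 < Real.log Y := Real.log_pos (by linarith)
  have hh0 : (0 : ℝ) < h := by exact_mod_cast hh
  have hA := HE Y hYY1 LF (3 * Y) h (fun p hp => (ro_lin p hp.pos).le)
    (fun q hq _ N H => sq_lin q hq N H) hh (by
      refine hhY.trans (le_of_eq ?_)
      congr 1
      ring) (HL Y e3) (HM Y hYY2)
  have hsub : (Icc 1 (3 * Y)).filter (fun N => Emp (AP r ζ) N h) ⊆
      (Icc 1 (3 * Y)).filter (fun N => ((posS LF Y ζ (9 / 10 * τ) lam (lam / (9 / 10 * τ)) h N).card : ℝ) <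
          δ * h / Real.log Y) := by
    intro N hN
    rw [mem_filter] at hN ⊢
    refine ⟨hN.1, ?_⟩
    have hNY : N ≤ 3 * Y := (mem_Icc.1 hN.1).2
    have hempty : posS LF Y ζ (9 / 10 * τ) lam (lam / (9 / 10 * τ)) h N = ∅ := by
      rw [eq_empty_iff_forall_notMem]
      intro j hj
      unfold posS pos at hj
      rw [mem_filter, mem_filter, mem_Icc, LF_eval, Int.natAbs_natCast] at hj
      obtain ⟨⟨⟨hj1, hj2⟩, hj3⟩, hj4⟩ := hj
      have h4Y : N + j ≤ 4 * Y := by omega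
      have h4Yr : (((N + j : ℕ)) : ℝ) ≤ 4 * Y := by exact_mod_cast h4Y
      have hsize : (((N + j : ℕ)) : ℝ) ≤ (Y : ℝ) ^ S := by
        calc (((N + j : ℕ)) : ℝ) ≤ 4 * Y := h4Yr
          _ ≤ (Y : ℝ) ^ (S - 1) * Y := mul_le_mul_of_nonneg_right e2 hY0.le
          _ = (Y : ℝ) ^ (S - 1) * (Y : ℝ) ^ (1 : ℝ) := by rw [Real.rpow_one]
          _ = (Y : ℝ) ^ S := by
              rw [← Real.rpow_add hY0]
              congr 1
              ring
      have hres := almost Y (by omega) ζ (9 / 10 * τ) lam S r hζυ hυ0 (by linarith) hlam hr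
        (N + j) (by omega) hsize hj3 (by
          intro q hq hqd
          apply hj4 q hq
          exact_mod_cast hqd)
      have hAP : AP r ζ (N + j) := by
        refine ⟨hres.1, fun p hp hpd => ?_⟩
        have h5 := hres.2 p hp hpd
        have h6 : (((N + j : ℕ)) : ℝ) ^ ζ ≤ 2 * (Y : ℝ) ^ ζ := by
          calc (((N + j : ℕ)) : ℝ) ^ ζ ≤ (4 * (Y : ℝ)) ^ ζ :=
                Real.rpow_le_rpow (Nat.cast_nonneg _) h4Yr hζ0.le
            _ = 4 ^ ζ * (Y : ℝ) ^ ζ := Real.mul_rpow (by norm_num) (by positivity)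
            _ ≤ 2 * (Y : ℝ) ^ ζ := by
                apply mul_le_mul_of_nonneg_right _ (by positivity)
                calc (4 : ℝ) ^ ζ ≤ 4 ^ (1 / 2 : ℝ) :=
                      Real.rpow_le_rpow_of_exponent_le (by norm_num) hζ2
                  _ = 2 := by
                      rw [show (4 : ℝ) = 2 ^ (2 : ℝ) by norm_num, ← Real.rpow_mul (by norm_num)]
                      norm_num
        linarith
      exact hN.2 (N + j) (by rw [mem_Ioc]; omega) hAP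
    rw [hempty]
    simp only [card_empty, Nat.cast_zero]
    positivity
  calc (((Icc 1 (3 * Y)).filter (fun N => Emp (AP r ζ) N h)).card : ℝ) ≤ _ := by
        exact_mod_cast card_le_card hsub
    _ ≤ (((3 * Y : ℕ) : ℝ) + (Y : ℝ) ^ (2 * τ)) / h * (Y : ℝ) ^ (ε / 2) := hA
    _ ≤ (4 * (Y : ℝ) ^ (2 * τ)) / h * (Y : ℝ) ^ (ε / 2) := by
        have u1 : (Y : ℝ) ≤ (Y : ℝ) ^ (2 * τ) := by
          calc (Y : ℝ) = (Y : ℝ) ^ (1 : ℝ) := (Real.rpow_one _).symm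
            _ ≤ _ := Real.rpow_le_rpow_of_exponent_le hY1r (by linarith)
        apply mul_le_mul_of_nonneg_right _ (by positivity)
        apply div_le_div_of_nonneg_right _ hh0.le
        push_cast
        linarith
    _ = ((Y : ℝ) ^ (2 * τ) * (4 * (Y : ℝ) ^ (ε / 2))) / h := by ring
    _ ≤ ((Y : ℝ) ^ (2 * τ) * ((Y : ℝ) ^ (ε / 2) * (Y : ℝ) ^ (ε / 2))) / h := by gcongr
    _ = _ := by
        rw [← Real.rpow_add hY0, ← Real.rpow_add hY0]
        congr 2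
        ring

open Classical in
/-- the mean square in a block -/
theorem blkGap (r : ℕ) (τ ζ ε : ℝ) (hpar : Par r τ ζ) (hτ : τ < 1) (hε : 0 < ε) :
    ∃ Y0 : ℕ, ∀ Y : ℕ, Y0 ≤ Y →
      ∑ n ∈ (Ioc Y (2 * Y)).filter (AP r ζ), ((gap (AP r ζ) n : ℕ) : ℝ) ^ 2 ≤
        (Y : ℝ) ^ (2 * τ + ε) := by
  obtain ⟨hτ2, -⟩ := numPar r τ ζ hpar hτ
  obtain ⟨κ, hκ0, hκ1, hκ2, hκ3⟩ : ∃ κ : ℝ, 0 < κ ∧ κ ≤ ε / 2 ∧ κ ≤ τ / 40 ∧ κ ≤ (1 - τ) / 2 :=
    ⟨min (ε / 2) (min (τ / 40) ((1 - τ) / 2)), by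
      apply lt_min (by linarith)
      exact lt_min (by linarith) (by linarith), min_le_left _ _,
      (min_le_right _ _).trans (min_le_left _ _), (min_le_right _ _).trans (min_le_right _ _)⟩
  obtain ⟨Y1, HF⟩ := fewEmpty r τ ζ κ hpar hτ hκ0
  have ev1 : ∀ᶠ Y : ℕ in atTop, (2 : ℝ) ≤ (Y : ℝ) ^ κ :=
    ((tendsto_rpow_atTop hκ0).comp tendsto_natCast_atTop_atTop).eventually_ge_atTop _
  have ev2 : ∀ᶠ Y : ℕ in atTop, 512 * Real.log Y ≤ (Y : ℝ) ^ κ := by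
    have h1 := (isLittleO_log_rpow_atTop hκ0).bound (show (0 : ℝ) < 1 / 512 by norm_num)
    filter_upwards [tendsto_natCast_atTop_atTop.eventually h1, eventually_ge_atTop 1] with Y hY hY1
    have hY1r : (1 : ℝ) ≤ Y := by exact_mod_cast hY1
    rw [Real.norm_of_nonneg (Real.log_nonneg hY1r), Real.norm_of_nonneg (by positivity)] at hY
    linarith
  obtain ⟨Y2, hY2⟩ := eventually_atTop.1 (ev1.and (ev2.and (eventually_ge_atTop 3)))
  refine ⟨max Y1 Y2, fun Y hY => ?_⟩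
  have hYY1 : Y1 ≤ Y := (le_max_left _ _).trans hY
  obtain ⟨e1, e2, e3⟩ := hY2 Y ((le_max_right _ _).trans hY)
  have hYr : (3 : ℝ) ≤ Y := by exact_mod_cast e3
  have hY0 : (0 : ℝ) < Y := by linarith
  have hY1r : (1 : ℝ) ≤ Y := by linarith
  have hlY1 : 1 ≤ Real.log Y := by
    rw [Real.le_log_iff_exp_le hY0]
    linarith [Real.exp_one_lt_d9]
  set H : ℕ := ⌈(Y : ℝ) ^ (τ + κ)⌉₊ with hH
  have hHge : (Y : ℝ) ^ (τ + κ) ≤ H := Nat.le_ceil _
  have hp1 : (1 : ℝ) ≤ (Y : ℝ) ^ (τ + κ) := Real.one_le_rpow hY1r (by linarith)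
  have hHle : (H : ℝ) ≤ (Y : ℝ) ^ (τ + 2 * κ) := by
    have h1 := Nat.ceil_lt_add_one (show 0 ≤ (Y : ℝ) ^ (τ + κ) by positivity)
    rw [← hH] at h1
    calc (H : ℝ) ≤ 2 * (Y : ℝ) ^ (τ + κ) := by linarith
      _ ≤ (Y : ℝ) ^ κ * (Y : ℝ) ^ (τ + κ) := mul_le_mul_of_nonneg_right e1 (by positivity)
      _ = _ := by
          rw [← Real.rpow_add hY0]
          congr 1
          ring
  have hH0 : 0 < H := by
    have : (0 : ℝ) < H := by linarith
    exact_mod_cast this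
  have hHY : (H : ℝ) ≤ Y := by
    calc (H : ℝ) ≤ (Y : ℝ) ^ (τ + 2 * κ) := hHle
      _ ≤ (Y : ℝ) ^ (1 : ℝ) := Real.rpow_le_rpow_of_exponent_le hY1r (by linarith)
      _ = Y := Real.rpow_one _
  have hHYn : H ≤ Y := by exact_mod_cast hHY
  have hH11 : (H : ℝ) ≤ (Y : ℝ) ^ (11 / 10 * τ) :=
    hHle.trans (Real.rpow_le_rpow_of_exponent_le hY1r (by linarith))
  have hmain := sum_sq (AP r ζ) Y H ((Y : ℝ) ^ (2 * τ + κ)) hHYn hH0 (by
      calc (Y : ℝ) = (Y : ℝ) ^ (1 : ℝ) := (Real.rpow_one _).symm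
        _ ≤ _ := Real.rpow_le_rpow_of_exponent_le hY1r (by linarith))
    (by
      intro h hh hhH
      have h1 : (h : ℝ) ≤ H := by exact_mod_cast hhH
      exact HF Y hYY1 h hh (h1.trans hH11) (hhH.trans hHYn))
    (by
      calc (Y : ℝ) ^ (2 * τ + κ) < (Y : ℝ) ^ (2 * (τ + κ)) :=
            Real.rpow_lt_rpow_of_exponent_lt (by linarith) (by linarith)
        _ = ((Y : ℝ) ^ (τ + κ)) ^ 2 := by
            rw [← Real.rpow_natCast, ← Real.rpow_mul hY0.le]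
            congr 1
            push_cast
            ring
        _ ≤ (H : ℝ) ^ 2 := pow_le_pow_left₀ (by positivity) hHge 2)
  refine hmain.trans ?_
  have hlog : (Nat.log 2 (2 * H) : ℝ) ≤ 1 + 2 * Real.log Y := by
    have h1 : 2 ^ (Nat.log 2 (2 * H)) ≤ 2 * H := Nat.pow_log_le_self 2 (by omega)
    have h2 : (Nat.log 2 (2 * H) : ℝ) * Real.log 2 ≤ Real.log (2 * Y) := by
      rw [← Real.log_pow]
      apply Real.log_le_log (by positivity)
      calc (2 : ℝ) ^ (Nat.log 2 (2 * H)) ≤ ((2 * H : ℕ) : ℝ) := by exact_mod_cast h1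
        _ ≤ 2 * Y := by
            push_cast
            linarith
    rw [Real.log_mul (by norm_num) hY0.ne'] at h2
    have h3 : 0.69 < Real.log 2 := by linarith [Real.log_two_gt_d9]
    have h4 : Real.log 2 < 0.7 := by linarith [Real.log_two_lt_d9]
    have h5 : (0 : ℝ) ≤ Nat.log 2 (2 * H) := Nat.cast_nonneg _
    by_contra hcon
    push Not at hcon
    nlinarith
  calc 64 * ((Nat.log 2 (2 * H) : ℝ) + 1) * (Y : ℝ) ^ (2 * τ + κ) ≤
      (Y : ℝ) ^ κ * (Y : ℝ) ^ (2 * τ + κ) := by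
        apply mul_le_mul_of_nonneg_right _ (by positivity)
        linarith
    _ = (Y : ℝ) ^ (2 * τ + 2 * κ) := by
        rw [← Real.rpow_add hY0]
        congr 1
        ring
    _ ≤ _ := Real.rpow_le_rpow_of_exponent_le hY1r (by linarith)

open Classical in
/-- **The mean square of the gaps.** -/
theorem meanSq (r : ℕ) (τ ζ ε : ℝ) (hpar : Par r τ ζ) (hτ : τ < 1) (hε : 0 < ε) :
    ∃ C : ℝ, 0 < C ∧ ∀ X : ℕ, 1 ≤ X →
      ∑ n ∈ (Icc 1 X).filter (AP r ζ), ((gap (AP r ζ) n : ℕ) : ℝ) ^ 2 ≤ C * (X : ℝ) ^ (2 * τ + ε) := by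
  obtain ⟨hτ2, -⟩ := numPar r τ ζ hpar hτ
  obtain ⟨Y0, H⟩ := blkGap r τ ζ ε hpar hτ hε
  obtain ⟨C, hC, h⟩ := cum_sum (fun n => if AP r ζ n then ((gap (AP r ζ) n : ℕ) : ℝ) ^ 2 else 0)
    (by
      intro n
      split_ifs <;> positivity) (2 * τ + ε) (by linarith) Y0 (by
      intro Y hY
      rw [← sum_filter]
      exact H Y hY)
  refine ⟨C, hC, fun X hX => ?_⟩
  have h1 := h X hX
  rwa [← sum_filter] at h1

end Pool.Agent.Y882.MG
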