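import Pool.Agent.Y882.MG.EngS

/-! The identity polynomial. -/

set_option autoImplicit false

namespace Pool.Agent.Y882.MG

open Finset Filter
open Pool.Agent.W23.DC
open Pool.Agent.Y882.PX
open Pool.Agent.Y882.KW
open Pool.Agent.Y882.SI
open Pool.Agent.W378.DC.TMP

/-- the polynomial `n` -/
noncomputable def LF : Polynomial ℤ := Polynomial.X

theorem LF_eval (n : ℤ) : LF.eval n = n := by
  unfold LF
  simp

theorem ro_lin (p : ℕ) (hp : 0 < p) : ro LF 0 p = 1 := by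
  rw [ro_eq]
  have h1 : (range p).filter (fun n : ℕ => (p : ℤ) ∣ LF.eval (n : ℤ) + 0) = {0} := by
    ext n
    rw [mem_filter, mem_range, mem_singleton, LF_eval, add_zero]
    constructor
    · rintro ⟨h, h'⟩
      have h2 : p ∣ n := by exact_mod_cast h'
      exact Nat.eq_zero_of_dvd_of_lt h2 h
    · rintro rfl
      exact ⟨hp, by simp⟩
  rw [h1, card_singleton]

theorem sq_lin (q : ℕ) (hq : q.Prime) (N H : ℕ) :
    ((((Icc 1 H).filter (fun j : ℕ => ((q ^ 2 : ℕ) : ℤ) ∣ LF.eval ((N + j : ℕ) : ℤ))).card : ℕ) : ℝ) ≤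
      (1 : ℕ) * (H * (1 / (q : ℝ) ^ 2) + 1) := by
  have h5 := class_count (q ^ 2) (pow_pos hq.pos 2) H (-(N : ℤ))
  have h6 : (Icc 1 H).filter (fun j : ℕ => ((q ^ 2 : ℕ) : ℤ) ∣ LF.eval ((N + j : ℕ) : ℤ)) =
      (Icc 1 H).filter (fun j : ℕ => ((q ^ 2 : ℕ) : ℤ) ∣ (j : ℤ) - (-(N : ℤ))) := by
    apply filter_congr
    intro j _
    rw [LF_eval]
    have : (((N + j : ℕ) : ℤ)) = (j : ℤ) - (-(N : ℤ)) := by
      push_cast
      ring
    rw [this]
  rw [h6]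
  refine h5.trans (le_of_eq ?_)
  push_cast
  ring

/-- the densities are regular -/
theorem mer_lin (ε₁ υ η : ℝ) (hε : 0 < ε₁) (hυ : υ ≤ 1)
    (hη : 0 < η) : ∃ Y0 : ℕ, ∀ Y : ℕ, Y0 ≤ Y →
      Mer (pr Y ε₁ υ) (tt Y) (fun p => (ro LF 0 p : ℝ) / p) ε₁ υ η := by
  classical
  obtain ⟨N1, hN1⟩ := Pool.Agent.W378.DC.MP ε₁ (η / 3) hε (by linarith)
  have ev1 : ∀ᶠ Y : ℕ in atTop, 3 / η + 4 ≤ (Y : ℝ) ^ ε₁ :=
    ((tendsto_rpow_atTop hε).comp tendsto_natCast_atTop_atTop).eventually_ge_atTop _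
  obtain ⟨Y1, hY1⟩ := eventually_atTop.1 (ev1.and (eventually_ge_atTop 3))
  refine ⟨max N1 Y1, fun Y hY => ?_⟩
  obtain ⟨e1, e4⟩ := hY1 Y ((le_max_right _ _).trans hY)
  have hYN1 : N1 ≤ Y := (le_max_left _ _).trans hY
  have hYr : (3 : ℝ) ≤ Y := by exact_mod_cast e4
  have hY0 : (0 : ℝ) < Y := by linarith
  have hY1r : (1 : ℝ) < Y := by linarith
  intro u v hu huv hv
  have hv1 : v ≤ 1 := hv.trans hυ
  have hset : (pr Y ε₁ υ).filter (fun p => u ≤ tt Y p ∧ tt Y p < v) = pr Y u v := by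
    ext p
    unfold pr
    rw [mem_filter, mem_filter, mem_filter]
    constructor
    · rintro ⟨⟨h1, h2, h3, h4⟩, h5, h6⟩
      exact ⟨h1, h2, h5, h6⟩
    · rintro ⟨h1, h2, h5, h6⟩
      exact ⟨⟨h1, h2, hu.trans h5, h6.trans_le hv⟩, h5, h6⟩
  rw [hset]
  have m1 := hN1 Y hYN1 u v hu huv hv1
  rw [pr_eq (by omega) hv1] at m1 ⊢
  have hmono : (Y : ℝ) ^ u ≤ (Y : ℝ) ^ v := Real.rpow_le_rpow_of_exponent_le hY1r.le huv
  have hu' : (Y : ℝ) ^ ε₁ ≤ (Y : ℝ) ^ u := Real.rpow_le_rpow_of_exponent_le hY1r.le hu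
  have hAB : ⌈(Y : ℝ) ^ u⌉₊ - 1 ≤ ⌈(Y : ℝ) ^ v⌉₊ - 1 := Nat.sub_le_sub_right (Nat.ceil_mono hmono) 1
  have hAl : (Y : ℝ) ^ ε₁ - 1 ≤ ((⌈(Y : ℝ) ^ u⌉₊ - 1 : ℕ) : ℝ) := by
    have h1 := Nat.le_ceil ((Y : ℝ) ^ u)
    have h2 : 1 ≤ ⌈(Y : ℝ) ^ u⌉₊ := Nat.ceil_pos.2 (by positivity)
    rw [Nat.cast_sub h2]
    push_cast
    linarith
  set A := ⌈(Y : ℝ) ^ u⌉₊ - 1 with hA
  set B := ⌈(Y : ℝ) ^ v⌉₊ - 1 with hB
  have hη3 : 0 < 3 / η := by positivity
  have hAη : 3 / η ≤ A := by linarith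
  have hA3 : (3 : ℝ) ≤ A := by linarith
  have hA1 : 1 ≤ A := by
    have : (1 : ℝ) ≤ A := by linarith
    exact_mod_cast this
  have m2 := shift_prime (A := A) (B := B) hA1 hAB
  rw [Finset.sum_sub_distrib] at m2
  have hsum : ∑ p ∈ (Ioc A B).filter Nat.Prime, (ro LF 0 p : ℝ) / p =
      ∑ p ∈ (Ioc A B).filter Nat.Prime, 1 / (p : ℝ) := by
    apply sum_congr rfl
    intro p hp
    rw [ro_lin p (mem_filter.1 hp).2.pos]
    push_cast
    rfl
  rw [hsum]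
  have m5 : 1 / (A : ℝ) ≤ η / 3 := by
    rw [div_le_iff₀ (by linarith)]
    rw [div_le_iff₀ hη] at hAη
    linarith
  obtain ⟨a1, a2⟩ := abs_le.1 m1
  rw [abs_le]
  constructor <;> linarith [m2.1, m2.2]

/-- the local factor has the exact order -/
theorem lo_lin : ∃ c : ℝ, 0 < c ∧ ∀ Z : ℕ, 3 ≤ Z → c / Real.log Z ≤ lo LF Z := by
  obtain ⟨C, hC0, hC⟩ := Pool.Agent.H474R2.GE.mertens_rho LF (by
    unfold LF
    exact Polynomial.irreducible_X) (by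
    unfold LF
    rw [Polynomial.natDegree_X]
    norm_num)
  refine ⟨Real.exp (-(C + 24)), Real.exp_pos _, fun Z hZ => ?_⟩
  have hZr : (3 : ℝ) ≤ Z := by exact_mod_cast hZ
  have h1 := (abs_le.1 (hC Z hZr)).2
  have hrho : ∀ p : ℕ, Pool.Agent.H474R2.PG.rho LF p = ro LF 0 p := by
    intro p
    rw [ro_eq]
    unfold Pool.Agent.H474R2.PG.rho
    simp
  have hlZ : 1 < Real.log Z := by
    rw [Real.lt_log_iff_exp_lt (by linarith)]
    linarith [Real.exp_one_lt_d9]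
  have hPR : Pool.Agent.H474R2.PG.PR (Z : ℝ) = (Icc 1 Z).filter Nat.Prime := by
    unfold Pool.Agent.H474R2.PG.PR
    rw [Nat.floor_natCast]
  have h2 : ∀ p ∈ (Icc 1 Z).filter Nat.Prime,
      Real.exp (-((ro LF 0 p : ℝ) / p) - 12 * (1 / (p : ℝ) ^ 2)) ≤ 1 - (ro LF 0 p : ℝ) / p := by
    intro p hp
    have hpp := (mem_filter.1 hp).2
    have hp0 : (0 : ℝ) < p := by exact_mod_cast hpp.pos
    have hp2 : (2 : ℝ) ≤ p := by exact_mod_cast hpp.two_le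
    rw [ro_lin p hpp.pos]
    have hx0 : 0 ≤ ((1 : ℕ) : ℝ) / p := by positivity
    have hx : ((1 : ℕ) : ℝ) / p ≤ 1 / 2 := by
      push_cast
      exact one_div_le_one_div_of_le (by norm_num) hp2
    set x := ((1 : ℕ) : ℝ) / p with hxdef
    have hx2 : x ^ 2 = 1 / (p : ℝ) ^ 2 := by
      rw [hxdef]
      push_cast
      rw [div_pow, one_pow]
    have h1x : 0 < 1 - x := by linarith
    rw [← hx2, ← Real.le_log_iff_exp_le h1x]
    have h3 := Real.one_sub_inv_le_log_of_pos h1x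
    refine le_trans ?_ h3
    have h4 : 1 - (1 - x)⁻¹ = - (x / (1 - x)) := by
      field_simp
      ring
    rw [h4]
    have h5 : x / (1 - x) ≤ x + 3 * x ^ 2 := by
      rw [div_le_iff₀ h1x]
      nlinarith [mul_nonneg (mul_nonneg hx0 hx0) (show 0 ≤ 2 - 3 * x by linarith)]
    nlinarith [sq_nonneg x]
  unfold lo
  calc Real.exp (-(C + 24)) / Real.log Z = Real.exp (-(Real.log (Real.log Z)) - C - 24) := by
        rw [show -(Real.log (Real.log Z)) - C - 24 = -(C + 24) - Real.log (Real.log Z) by ring,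
          Real.exp_sub, Real.exp_log (by linarith)]
    _ ≤ Real.exp (∑ p ∈ (Icc 1 Z).filter Nat.Prime,
        (-((ro LF 0 p : ℝ) / p) - 12 * (1 / (p : ℝ) ^ 2))) := by
        apply Real.exp_le_exp.2
        rw [sum_sub_distrib, sum_neg_distrib, ← mul_sum]
        have h3 : ∑ p ∈ (Icc 1 Z).filter Nat.Prime, (1 / (p : ℝ) ^ 2) ≤ 2 := by
          calc ∑ p ∈ (Icc 1 Z).filter Nat.Prime, (1 / (p : ℝ) ^ 2) ≤ 2 / 2 := by
                apply tail_sq _ 2 le_rfl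
                intro q hq
                exact_mod_cast (mem_filter.1 hq).2.two_le
            _ ≤ 2 := by norm_num
        have h4 : ∑ p ∈ (Icc 1 Z).filter Nat.Prime, (ro LF 0 p : ℝ) / p ≤
            Real.log (Real.log Z) + C := by
          unfold Pool.Agent.H474R2.PG.Sg at h1
          rw [hPR] at h1
          simp_rw [hrho] at h1
          linarith
        linarith
    _ = ∏ p ∈ (Icc 1 Z).filter Nat.Prime,
        Real.exp (-((ro LF 0 p : ℝ) / p) - 12 * (1 / (p : ℝ) ^ 2)) := Real.exp_sum _ _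
    _ ≤ _ := prod_le_prod (fun _ _ => (Real.exp_pos _).le) h2

end Pool.Agent.Y882.MG
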