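import Pool.Agent.Y882.MG.EngS
import Pool.Agent.Y882.SI.Fin

/-! Almost prime values of `n ^ 2 + a` in short intervals: all lengths. -/

set_option autoImplicit false

namespace Pool.Agent.Y882.MG

open Finset Polynomial Filter
open Pool.Agent.W23.DC
open Pool.Agent.Y882.PX
open Pool.Agent.Y882.KW
open Pool.Agent.Y882.SI

theorem sq_countS (a : ℤ) (ha : a ≠ 0) (q : ℕ) (hq : q.Prime) (hqa : a.natAbs < q) (h2 : 2 < q)
    (N H : ℕ) : ((((Icc 1 H).filter
      (fun j : ℕ => ((q ^ 2 : ℕ) : ℤ) ∣ (QF a).eval ((N + j : ℕ) : ℤ))).card : ℕ) : ℝ) ≤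
      (2 : ℕ) * (H * (1 / (q : ℝ) ^ 2) + 1) := by
  classical
  rcases ((Icc 1 H).filter (fun j : ℕ =>
    ((q ^ 2 : ℕ) : ℤ) ∣ (QF a).eval ((N + j : ℕ) : ℤ))).eq_empty_or_nonempty with h | ⟨j0, hj0⟩
  · rw [h]
    simp only [card_empty, Nat.cast_zero]
    positivity
  rw [mem_filter, QF_eval] at hj0
  have hsub : (Icc 1 H).filter (fun j : ℕ => ((q ^ 2 : ℕ) : ℤ) ∣ (QF a).eval ((N + j : ℕ) : ℤ)) ⊆
      (Icc 1 H).filter (fun n : ℕ => ((q ^ 2 : ℕ) : ℤ) ∣ (n : ℤ) - (j0 : ℤ)) ∪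
      (Icc 1 H).filter (fun n : ℕ => ((q ^ 2 : ℕ) : ℤ) ∣ (n : ℤ) - (-(2 * (N : ℤ) + j0))) := by
    intro j hj
    rw [mem_filter, QF_eval] at hj
    rw [mem_union, mem_filter, mem_filter]
    have hqZ : Prime (q : ℤ) := Nat.prime_iff_prime_int.1 hq
    obtain ⟨n, hn⟩ : ∃ n : ℤ, n = ((N + j : ℕ) : ℤ) := ⟨_, rfl⟩
    obtain ⟨n0, hn0⟩ : ∃ n0 : ℤ, n0 = ((N + j0 : ℕ) : ℤ) := ⟨_, rfl⟩
    rw [← hn] at hj
    rw [← hn0] at hj0
    have e1 : (j : ℤ) - (j0 : ℤ) = n - n0 := by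
      rw [hn, hn0]
      push_cast
      ring
    have e2 : (j : ℤ) - (-(2 * (N : ℤ) + j0)) = n + n0 := by
      rw [hn, hn0]
      push_cast
      ring
    rw [e1, e2]
    have h3 : ((q ^ 2 : ℕ) : ℤ) ∣ (n - n0) * (n + n0) := by
      have := dvd_sub hj.2 hj0.2
      have e : n ^ 2 + a - (n0 ^ 2 + a) = (n - n0) * (n + n0) := by ring
      rwa [e] at this
    by_cases h4 : (q : ℤ) ∣ n - n0
    · have h5 : ¬ (q : ℤ) ∣ n + n0 := by
        intro h6
        have h7 : (q : ℤ) ∣ 2 * n := by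
          have := dvd_add h4 h6
          have e : n - n0 + (n + n0) = 2 * n := by ring
          rwa [e] at this
        have h8 : (q : ℤ) ∣ n := by
          rcases hqZ.dvd_or_dvd h7 with h | h
          · have := Int.le_of_dvd (by norm_num) h
            omega
          · exact h
        have h9 : (q : ℤ) ∣ n ^ 2 + a := by
          refine dvd_trans ?_ hj.2
          push_cast
          exact dvd_pow_self _ (by norm_num)
        have h10 : (q : ℤ) ∣ a := by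
          have h11 : (q : ℤ) ∣ n ^ 2 := dvd_pow h8 (by norm_num)
          have := dvd_sub h9 h11
          have e : n ^ 2 + a - n ^ 2 = a := by ring
          rwa [e] at this
        have h12 : q ∣ a.natAbs := Int.natCast_dvd.1 h10
        have := Nat.le_of_dvd (Int.natAbs_pos.2 ha) h12
        omega
      left
      refine ⟨hj.1, ?_⟩
      have h6 : IsCoprime ((q ^ 2 : ℕ) : ℤ) (n + n0) := by
        push_cast
        apply IsCoprime.pow_left
        exact (Prime.coprime_iff_not_dvd hqZ).2 h5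
      exact h6.dvd_of_dvd_mul_right h3
    · right
      refine ⟨hj.1, ?_⟩
      have h6 : IsCoprime ((q ^ 2 : ℕ) : ℤ) (n - n0) := by
        push_cast
        apply IsCoprime.pow_left
        exact (Prime.coprime_iff_not_dvd hqZ).2 h4
      exact h6.dvd_of_dvd_mul_left h3
  have hm : 0 < q ^ 2 := pow_pos hq.pos 2
  have c1 := class_count (q ^ 2) hm H (j0 : ℤ)
  have c2 := class_count (q ^ 2) hm H (-(2 * (N : ℤ) + j0))
  have h3 : ((((Icc 1 H).filter
      (fun j : ℕ => ((q ^ 2 : ℕ) : ℤ) ∣ (QF a).eval ((N + j : ℕ) : ℤ))).card : ℕ) : ℝ) ≤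
      (((Icc 1 H).filter (fun n : ℕ => ((q ^ 2 : ℕ) : ℤ) ∣ (n : ℤ) - (j0 : ℤ))).card : ℝ) +
      (((Icc 1 H).filter (fun n : ℕ => ((q ^ 2 : ℕ) : ℤ) ∣ (n : ℤ) - (-(2 * (N : ℤ) + j0)))).card : ℝ) := by
    exact_mod_cast (card_le_card hsub).trans (card_union_le _ _)
  refine h3.trans ((add_le_add c1 c2).trans (le_of_eq ?_))
  push_cast
  ring

open Classical in
theorem finS (a : ℤ) (ha : ¬ IsSquare (-a)) (r : ℕ) (τ ζ υ lam S : ℝ) (hζ : 0 < ζ) (h2 : 2 * ζ < τ)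
    (h4 : τ ≤ 4 * ζ) (hτ : τ < 1) (hτ2 : 1 / 2 ≤ τ) (hζυ : ζ ≤ υ) (hυτ : υ < τ)
    (hlam : 0 < lam)
    (hJ0 : ∫ x in ζ..υ, (lam - lam / υ * x) / (τ - x) / x < Real.log (τ / ζ - 1) / τ) (hS : 2 < S)
    (hr : 1 / lam + S / υ ≤ r + 1) (h ε : ℝ) (hh : 0 < h) (hh1 : h ≤ τ) (hε : 0 < ε) :
    ∃ δ : ℝ, 0 < δ ∧ ∃ X0 : ℕ, ∀ X : ℕ, X0 ≤ X →
      (((Icc 1 (2 * X)).filter (fun N => ((gset a r ((X : ℝ) ^ ζ) N ⌊(X : ℝ) ^ h⌋₊).card : ℝ) <
        δ * (X : ℝ) ^ h / Real.log X)).card : ℝ) ≤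
      (X : ℝ) ^ (2 * τ - h + ε) := by
  have ha0 : a ≠ 0 := by
    rintro rfl
    exact ha ⟨0, by simp⟩
  have hυ0 : 0 < υ := by linarith
  have hυ1 : υ ≤ 1 := by linarith
  obtain ⟨c, hc, HL⟩ := lo_quad a ha
  obtain ⟨δ, ε₁, η, hδ, hε₁, hε₁ζ, hη, Y1, HE⟩ := engS 2 τ ζ υ lam (lam / υ) (ε / 2) c
    hζ h2 h4 hτ hζυ hυτ hlam.le (by positivity) (by rw [div_mul_cancel₀ _ hυ0.ne']) hJ0
    (by linarith) hc
  obtain ⟨Y2, HM⟩ := mer_quad a ha ε₁ υ η hε₁ hυ1 hη
  have ev1 : ∀ᶠ Y : ℕ in atTop, (6 : ℝ) ≤ (Y : ℝ) ^ (ε / 2) :=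
    ((tendsto_rpow_atTop (by linarith)).comp tendsto_natCast_atTop_atTop).eventually_ge_atTop _
  have ev2 : ∀ᶠ Y : ℕ in atTop, (2 : ℝ) ≤ (Y : ℝ) ^ h :=
    ((tendsto_rpow_atTop hh).comp tendsto_natCast_atTop_atTop).eventually_ge_atTop _
  have ev3 : ∀ᶠ Y : ℕ in atTop, (a.natAbs : ℝ) + 4 ≤ (Y : ℝ) ^ ζ :=
    ((tendsto_rpow_atTop hζ).comp tendsto_natCast_atTop_atTop).eventually_ge_atTop _
  have ev4 : ∀ᶠ Y : ℕ in atTop, 9 + |(a : ℝ)| ≤ (Y : ℝ) ^ (S - 2) :=
    ((tendsto_rpow_atTop (by linarith)).comp tendsto_natCast_atTop_atTop).eventually_ge_atTop _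
  obtain ⟨Y4, hY4⟩ := eventually_atTop.1
    (ev1.and (ev2.and (ev3.and (ev4.and (eventually_ge_atTop 3)))))
  refine ⟨δ / 2, by positivity, max (max Y1 Y2) Y4, ?_⟩
  intro X hX
  obtain ⟨e1, e2, e3, e4, e5⟩ := hY4 X ((le_max_right _ _).trans hX)
  have hX1 : Y1 ≤ X := ((le_max_left _ _).trans (le_max_left _ _)).trans hX
  have hX2 : Y2 ≤ X := ((le_max_right _ _).trans (le_max_left _ _)).trans hX
  have hXr : (3 : ℝ) ≤ X := by exact_mod_cast e5
  have hX0 : (0 : ℝ) < X := by linarith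
  have hX1r : (1 : ℝ) ≤ X := by linarith
  have hlX : 0 < Real.log X := Real.log_pos (by linarith)
  set H : ℕ := ⌊(X : ℝ) ^ h⌋₊ with hH
  have hHle : (H : ℝ) ≤ (X : ℝ) ^ h := Nat.floor_le (by positivity)
  have hHge : (X : ℝ) ^ h / 2 ≤ H := by
    have := Nat.lt_floor_add_one ((X : ℝ) ^ h)
    rw [← hH] at this
    linarith
  have hH1 : 1 ≤ H := by
    rw [hH]
    exact Nat.le_floor (by push_cast; linarith)
  have hHr : (0 : ℝ) < H := by exact_mod_cast hH1
  have hHX : (H : ℝ) ≤ X := by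
    refine hHle.trans ?_
    calc (X : ℝ) ^ h ≤ (X : ℝ) ^ (1 : ℝ) := Real.rpow_le_rpow_of_exponent_le hX1r (by linarith)
      _ = X := Real.rpow_one _
  have hHXn : H ≤ X := by exact_mod_cast hHX
  have hA := HE X hX1 (QF a) (2 * X) H (fun p hp => ro_quad_le a p hp) (by
      intro q hq hqX N H'
      have u1 : (a.natAbs : ℝ) + 4 ≤ q := e3.trans hqX
      have u2 : a.natAbs + 4 ≤ q := by exact_mod_cast u1
      exact sq_countS a ha0 q hq (by omega) (by omega) N H') (by omega)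
    (by
      refine hHle.trans (Real.rpow_le_rpow_of_exponent_le hX1r ?_)
      linarith) (HL X e5) (HM X hX2)
  have hsub : (Icc 1 (2 * X)).filter (fun N => ((gset a r ((X : ℝ) ^ ζ) N H).card : ℝ) <
        δ / 2 * (X : ℝ) ^ h / Real.log X) ⊆
      (Icc 1 (2 * X)).filter (fun N => ((posS (QF a) X ζ υ lam (lam / υ) H N).card : ℝ) <
          δ * H / Real.log X) := by
    intro N hN
    rw [mem_filter] at hN ⊢
    refine ⟨hN.1, ?_⟩
    have hNX : N ≤ 2 * X := (mem_Icc.1 hN.1).2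
    have g3 : (posS (QF a) X ζ υ lam (lam / υ) H N).card ≤ (gset a r ((X : ℝ) ^ ζ) N H).card := by
      apply card_le_card_of_injOn (fun j => N + j)
      · intro j hj
        show N + j ∈ _
        unfold posS pos at hj
        rw [mem_coe, mem_filter, mem_filter, mem_Icc] at hj
        obtain ⟨⟨⟨hj3, hj4⟩, hj5⟩, hj6⟩ := hj
        rw [QF_eval] at hj5
        unfold gset
        rw [mem_coe, mem_filter, mem_Ioc]
        refine ⟨⟨by omega, by omega⟩, ?_⟩
        have hne : (((N + j : ℕ) : ℤ) ^ 2 + a) ≠ 0 := by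
          intro h0
          apply ha
          exact ⟨((N + j : ℕ) : ℤ), by linarith⟩
        have hsize : ((((N + j : ℕ) : ℤ) ^ 2 + a).natAbs : ℝ) ≤ (X : ℝ) ^ S := by
          have u1 : ((((N + j : ℕ) : ℤ) ^ 2 + a).natAbs : ℝ) = |(((N + j : ℕ) : ℝ)) ^ 2 + a| := by
            rw [Nat.cast_natAbs]
            push_cast
            rfl
          rw [u1]
          have u2 : (((N + j : ℕ) : ℝ)) ≤ 3 * X := by
            have : N + j ≤ 3 * X := by omega
            exact_mod_cast this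
          have u3 : (((N + j : ℕ) : ℝ)) ^ 2 ≤ (3 * X) ^ 2 := pow_le_pow_left₀ (Nat.cast_nonneg _) u2 2
          have u4 : (1 : ℝ) ≤ (X : ℝ) ^ 2 := by nlinarith
          have u5 := abs_nonneg (a : ℝ)
          calc |(((N + j : ℕ) : ℝ)) ^ 2 + a| ≤ |(((N + j : ℕ) : ℝ)) ^ 2| + |(a : ℝ)| := abs_add_le _ _
            _ = (((N + j : ℕ) : ℝ)) ^ 2 + |(a : ℝ)| := by rw [abs_of_nonneg (by positivity)]
            _ ≤ (9 + |(a : ℝ)|) * (X : ℝ) ^ 2 := by nlinarith
            _ ≤ (X : ℝ) ^ (S - 2) * (X : ℝ) ^ 2 := mul_le_mul_of_nonneg_right e4 (by positivity)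
            _ = (X : ℝ) ^ S := by
                rw [← Real.rpow_natCast (X : ℝ) 2, ← Real.rpow_add hX0]
                congr 1
                push_cast
                ring
        have hres := almost X (by omega) ζ υ lam S r hζυ hυ0 hυ1 hlam hr
          (((N + j : ℕ) : ℤ) ^ 2 + a).natAbs (Int.natAbs_ne_zero.2 hne) hsize hj5 (by
            intro q hq hqd
            apply hj6 q hq
            rw [QF_eval]
            exact Int.natCast_dvd.2 hqd)
        exact ⟨hres.1, fun p hp hpd => hres.2 p hp (Int.natCast_dvd.1 hpd)⟩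
      · intro x _ y _ hxy
        simpa using hxy
    have g3r : ((posS (QF a) X ζ υ lam (lam / υ) H N).card : ℝ) ≤
        ((gset a r ((X : ℝ) ^ ζ) N H).card : ℝ) := by exact_mod_cast g3
    refine g3r.trans_lt (hN.2.trans_le ?_)
    apply div_le_div_of_nonneg_right _ hlX.le
    calc δ / 2 * (X : ℝ) ^ h = δ * ((X : ℝ) ^ h / 2) := by ring
      _ ≤ δ * H := mul_le_mul_of_nonneg_left hHge hδ.le
  have hXh0 : (0 : ℝ) < (X : ℝ) ^ h := by positivity
  calc (((Icc 1 (2 * X)).filter (fun N => ((gset a r ((X : ℝ) ^ ζ) N H).card : ℝ) <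
        δ / 2 * (X : ℝ) ^ h / Real.log X)).card : ℝ) ≤ _ := by exact_mod_cast card_le_card hsub
    _ ≤ (((2 * X : ℕ) : ℝ) + (X : ℝ) ^ (2 * τ)) / H * (X : ℝ) ^ (ε / 2) := hA
    _ ≤ (3 * (X : ℝ) ^ (2 * τ)) / ((X : ℝ) ^ h / 2) * (X : ℝ) ^ (ε / 2) := by
        have u1 : (X : ℝ) ≤ (X : ℝ) ^ (2 * τ) := by
          calc (X : ℝ) = (X : ℝ) ^ (1 : ℝ) := (Real.rpow_one _).symm
            _ ≤ _ := Real.rpow_le_rpow_of_exponent_le hX1r (by linarith)
        apply mul_le_mul_of_nonneg_right _ (by positivity)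
        apply div_le_div₀ (by positivity) (by push_cast; linarith) (by positivity) hHge
    _ = 6 * ((X : ℝ) ^ (2 * τ) / (X : ℝ) ^ h) * (X : ℝ) ^ (ε / 2) := by
        field_simp
        norm_num
    _ ≤ (X : ℝ) ^ (ε / 2) * ((X : ℝ) ^ (2 * τ) / (X : ℝ) ^ h) * (X : ℝ) ^ (ε / 2) := by
        gcongr
    _ = _ := by
        rw [← Real.rpow_sub hX0, ← Real.rpow_add hX0, ← Real.rpow_add hX0]
        congr 1
        ring

open Classical in
/-- double counting: few bad short windows, then the long window is good -/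
theorem long_of_short (Q : ℕ → Prop) (N L H M : ℕ) (B E : ℝ) (hL0 : 0 < L) (hLH : L ≤ H)
    (hN : 1 ≤ N) (hNM : N + H ≤ M) (hB : 0 ≤ B)
    (hE : (((Icc 1 M).filter (fun n => (((Ioc n (n + L)).filter Q).card : ℝ) < B)).card : ℝ) ≤ E) :
    ((H : ℝ) - L - E) * B ≤ L * (((Ioc N (N + H)).filter Q).card : ℝ) := by
  set G := (Icc N (N + (H - L))).filter (fun n => ¬ (((Ioc n (n + L)).filter Q).card : ℝ) < B) with hG
  have h1 : (G.card : ℝ) * B ≤ ∑ n ∈ G, (((Ioc n (n + L)).filter Q).card : ℝ) := by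
    rw [← nsmul_eq_mul]
    apply card_nsmul_le_sum
    intro n hn
    rw [hG, mem_filter] at hn
    exact not_lt.1 hn.2
  have h2 : ∑ n ∈ G, (((Ioc n (n + L)).filter Q).card : ℝ) ≤
      L * (((Ioc N (N + H)).filter Q).card : ℝ) := by
    have h3 : ∑ n ∈ G, (((Ioc n (n + L)).filter Q).card) ≤
        ∑ m ∈ (Ioc N (N + H)).filter Q, (G.filter (fun n => m ∈ Ioc n (n + L))).card := by
      have e1 : ∀ n ∈ G, ((Ioc n (n + L)).filter Q).card =
          ∑ m ∈ (Ioc N (N + H)).filter Q, if m ∈ Ioc n (n + L) then 1 else 0 := by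
        intro n hn
        rw [hG, mem_filter, mem_Icc] at hn
        rw [← card_filter]
        congr 1
        ext m
        simp only [mem_filter, mem_Ioc]
        constructor
        · rintro ⟨⟨u1, u2⟩, u3⟩
          exact ⟨⟨⟨by omega, by omega⟩, u3⟩, u1, u2⟩
        · rintro ⟨⟨_, u3⟩, u1, u2⟩
          exact ⟨⟨u1, u2⟩, u3⟩
      rw [sum_congr rfl e1, sum_comm]
      apply sum_le_sum
      intro m _
      rw [← card_filter]
    have h4 : ∀ m ∈ (Ioc N (N + H)).filter Q, (G.filter (fun n => m ∈ Ioc n (n + L))).card ≤ L := by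
      intro m _
      have e2 : G.filter (fun n => m ∈ Ioc n (n + L)) ⊆ Ico (m - L) m := by
        intro n hn
        rw [mem_filter, mem_Ioc] at hn
        rw [mem_Ico]
        omega
      refine (card_le_card e2).trans ?_
      rw [Nat.card_Ico]
      omega
    have h5 := h3.trans (sum_le_card_nsmul _ _ _ h4)
    rw [smul_eq_mul] at h5
    have h6 : (∑ n ∈ G, (((Ioc n (n + L)).filter Q).card : ℝ)) ≤
        (((Ioc N (N + H)).filter Q).card : ℝ) * L := by exact_mod_cast h5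
    linarith
  have h7 : (H : ℝ) - L - E ≤ G.card := by
    have h8 := card_filter_add_card_filter_not (s := Icc N (N + (H - L)))
      (p := fun n => (((Ioc n (n + L)).filter Q).card : ℝ) < B)
    rw [Nat.card_Icc] at h8
    have h9 : ((Icc N (N + (H - L))).filter (fun n => (((Ioc n (n + L)).filter Q).card : ℝ) < B)).card ≤
        ((Icc 1 M).filter (fun n => (((Ioc n (n + L)).filter Q).card : ℝ) < B)).card := by
      apply card_le_card
      intro n hn
      rw [mem_filter, mem_Icc] at hn ⊢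
      exact ⟨⟨by omega, by omega⟩, hn.2⟩
    have h10 : (((Icc N (N + (H - L))).filter
        (fun n => (((Ioc n (n + L)).filter Q).card : ℝ) < B)).card : ℝ) ≤ E :=
      le_trans (by exact_mod_cast h9) hE
    have h11 : (((Icc N (N + (H - L))).filter
        (fun n => (((Ioc n (n + L)).filter Q).card : ℝ) < B)).card : ℝ) + G.card =
        ((N + (H - L) + 1 - N : ℕ) : ℝ) := by
      exact_mod_cast h8
    have h12 : ((N + (H - L) + 1 - N : ℕ) : ℝ) = H - L + 1 := by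
      have : N + (H - L) + 1 - N = H - L + 1 := by omega
      rw [this]
      push_cast [Nat.cast_sub hLH]
      ring
    linarith
  exact (mul_le_mul_of_nonneg_right h7 hB).trans (h1.trans h2)

open Classical in
/-- **All lengths.** -/
theorem finAll (a : ℤ) (ha : ¬ IsSquare (-a)) (r : ℕ) (τ ζ υ lam S : ℝ) (hζ : 0 < ζ) (h2 : 2 * ζ < τ)
    (h4 : τ ≤ 4 * ζ) (hτ : τ < 1) (hτ2 : 1 / 2 ≤ τ) (hζυ : ζ ≤ υ) (hυτ : υ < τ)
    (hlam : 0 < lam)
    (hJ0 : ∫ x in ζ..υ, (lam - lam / υ * x) / (τ - x) / x < Real.log (τ / ζ - 1) / τ) (hS : 2 < S)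
    (hr : 1 / lam + S / υ ≤ r + 1) (h ε : ℝ) (hh : 0 < h) (hh1 : h ≤ 1) (hε : 0 < ε) :
    ∃ δ : ℝ, 0 < δ ∧ ∃ X0 : ℕ, ∀ X : ℕ, X0 ≤ X →
      (((Icc 1 X).filter (fun N => ((gset a r ((X : ℝ) ^ ζ) N ⌊(X : ℝ) ^ h⌋₊).card : ℝ) <
        δ * (X : ℝ) ^ h / Real.log X)).card : ℝ) ≤
      (X : ℝ) ^ (2 * τ - h + ε) := by
  rcases le_or_gt h τ with hle | hgt
  · obtain ⟨δ, hδ, X0, H⟩ := finS a ha r τ ζ υ lam S hζ h2 h4 hτ hτ2 hζυ hυτ hlam hJ0 hS hr h ε hh
      hle hε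
    refine ⟨δ, hδ, X0, fun X hX => le_trans ?_ (H X hX)⟩
    apply Nat.cast_le.2
    apply card_le_card
    apply filter_subset_filter
    apply Icc_subset_Icc_right
    omega
  · obtain ⟨δ, hδ, X0, H⟩ := finS a ha r τ ζ υ lam S hζ h2 h4 hτ hτ2 hζυ hυτ hlam hJ0 hS hr τ
      ((h - τ) / 2) (by linarith) le_rfl (by linarith)
    have ev1 : ∀ᶠ Y : ℕ in atTop, (16 : ℝ) ≤ (Y : ℝ) ^ ((h - τ) / 2) :=
      ((tendsto_rpow_atTop (by linarith)).comp tendsto_natCast_atTop_atTop).eventually_ge_atTop _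
    have ev2 : ∀ᶠ Y : ℕ in atTop, (2 : ℝ) ≤ (Y : ℝ) ^ τ :=
      ((tendsto_rpow_atTop (by linarith)).comp tendsto_natCast_atTop_atTop).eventually_ge_atTop _
    obtain ⟨X1, hX1⟩ := eventually_atTop.1 (ev1.and (ev2.and (eventually_ge_atTop 3)))
    refine ⟨δ / 4, by positivity, max X0 X1, fun X hX => ?_⟩
    obtain ⟨e1, e2, e3⟩ := hX1 X ((le_max_right _ _).trans hX)
    have hE := H X ((le_max_left _ _).trans hX)
    have hXr : (3 : ℝ) ≤ X := by exact_mod_cast e3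
    have hXp : (0 : ℝ) < X := by linarith
    have hX1r : (1 : ℝ) ≤ X := by linarith
    have hlX : 0 < Real.log X := Real.log_pos (by linarith)
    have hemp : (Icc 1 X).filter (fun N => ((gset a r ((X : ℝ) ^ ζ) N ⌊(X : ℝ) ^ h⌋₊).card : ℝ) <
        δ / 4 * (X : ℝ) ^ h / Real.log X) = ∅ := by
      rw [filter_eq_empty_iff]
      intro N hN
      rw [mem_Icc] at hN
      rw [not_lt]
      obtain ⟨Q, hQ⟩ : ∃ Q : ℕ → Prop, Q = fun n : ℕ => (((n : ℤ) ^ 2 + a).natAbs.primeFactorsList.length ≤ r ∧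
        ∀ p : ℕ, p.Prime → (p : ℤ) ∣ (n : ℤ) ^ 2 + a → (X : ℝ) ^ ζ ≤ p) := ⟨_, rfl⟩
      have hQn : ∀ n : ℕ, Q n ↔ (((n : ℤ) ^ 2 + a).natAbs.primeFactorsList.length ≤ r ∧
        ∀ p : ℕ, p.Prime → (p : ℤ) ∣ (n : ℤ) ^ 2 + a → (X : ℝ) ^ ζ ≤ p) := by
        intro n
        rw [hQ]
      have e6 : ∀ n L : ℕ, gset a r ((X : ℝ) ^ ζ) n L = (Ioc n (n + L)).filter Q := by
        intro n L
        ext m
        unfold gset
        rw [mem_filter, mem_filter, hQn]
      set L : ℕ := ⌊(X : ℝ) ^ τ⌋₊ with hL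
      set K : ℕ := ⌊(X : ℝ) ^ h⌋₊ with hK
      have hL1 : (L : ℝ) ≤ (X : ℝ) ^ τ := Nat.floor_le (by positivity)
      have hL2 : 1 ≤ L := by
        rw [hL]
        exact Nat.le_floor (by push_cast; linarith)
      have hLr : (0 : ℝ) < L := by exact_mod_cast hL2
      have hK1 : (K : ℝ) ≤ (X : ℝ) ^ h := Nat.floor_le (by positivity)
      have hKX : (K : ℝ) ≤ X := by
        refine hK1.trans ?_
        calc (X : ℝ) ^ h ≤ (X : ℝ) ^ (1 : ℝ) := Real.rpow_le_rpow_of_exponent_le hX1r hh1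
          _ = X := Real.rpow_one _
      have hKXn : K ≤ X := by exact_mod_cast hKX
      have hK2 : (X : ℝ) ^ h - 1 < K := by
        have := Nat.lt_floor_add_one ((X : ℝ) ^ h)
        rw [← hK] at this
        linarith
      have hbig : 16 * (X : ℝ) ^ (2 * τ - τ + (h - τ) / 2) ≤ (X : ℝ) ^ h := by
        calc 16 * (X : ℝ) ^ (2 * τ - τ + (h - τ) / 2) ≤
            (X : ℝ) ^ ((h - τ) / 2) * (X : ℝ) ^ (2 * τ - τ + (h - τ) / 2) :=
              mul_le_mul_of_nonneg_right e1 (by positivity)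
          _ = (X : ℝ) ^ h := by
              rw [← Real.rpow_add hXp]
              congr 1
              ring
      have hτh : (X : ℝ) ^ τ ≤ (X : ℝ) ^ (2 * τ - τ + (h - τ) / 2) :=
        Real.rpow_le_rpow_of_exponent_le hX1r (by linarith)
      have hLK : L ≤ K := by
        have : (L : ℝ) ≤ K := by linarith
        exact_mod_cast this
      have hB0 : 0 ≤ δ * (X : ℝ) ^ τ / Real.log X := by positivity
      have hmain := long_of_short Q N L K (2 * X) (δ * (X : ℝ) ^ τ / Real.log X)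
        ((X : ℝ) ^ (2 * τ - τ + (h - τ) / 2)) (by omega) hLK hN.1 (by omega) hB0 (by
          refine le_trans (le_of_eq ?_) hE
          congr 2
          apply filter_congr
          intro n _
          rw [e6])
      rw [e6]
      have h9 : (X : ℝ) ^ h / 2 ≤ (K : ℝ) - L - (X : ℝ) ^ (2 * τ - τ + (h - τ) / 2) := by linarith
      have h10 : (X : ℝ) ^ h / 2 * (δ * (X : ℝ) ^ τ / Real.log X) ≤
          (X : ℝ) ^ τ * (((Ioc N (N + K)).filter Q).card : ℝ) :=
        (mul_le_mul_of_nonneg_right h9 hB0).trans (hmain.trans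
          (mul_le_mul_of_nonneg_right hL1 (Nat.cast_nonneg _)))
      have h11 : (X : ℝ) ^ h / 2 * (δ * (X : ℝ) ^ τ / Real.log X) =
          (X : ℝ) ^ τ * (δ / 2 * (X : ℝ) ^ h / Real.log X) := by ring
      rw [h11] at h10
      have h12 := le_of_mul_le_mul_left h10 (by positivity)
      refine le_trans ?_ h12
      apply div_le_div_of_nonneg_right _ hlX.le
      apply mul_le_mul_of_nonneg_right _ (by positivity)
      linarith
    rw [hemp]
    simp only [card_empty, Nat.cast_zero]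
    positivity

end Pool.Agent.Y882.MG
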